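import Pool.Agent.K1H88.GT.Stm2

/-!
Project GT, part 3: the exceptional `α` have Hausdorff dimension less than one. Statement of the piece LSP.
-/

set_option autoImplicit false

namespace Pool.Agent.K1H88.GT

open Finset MeasureTheory

/-- Piece LSP: the second moment of the correlations over points `β i ∈ [i/R, (i+1)/R]` (Sobolev-Gallagher). -/
def S_LSP : Prop := ∀ (φ : ℕ → ℤ) (U1 U2 j R K : ℕ) (β : ℕ → ℝ), 1 ≤ R →
  (∀ m h : ℕ, U1 + j < m → m ≤ U2 + j → 1 ≤ h → h ≤ j → |φ m - φ (m - h)| ≤ K) →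
  (∀ i < R, (i : ℝ) / R ≤ β i ∧ β i ≤ ((i : ℝ) + 1) / R) →
  ∑ i ∈ range R, ‖ZZ (fa φ (β i)) U1 U2 j‖ ^ 2 ≤
    ((R : ℝ) + 14 * K) * ((solP φ (U1 + j) (U2 + j) j).card : ℝ)

/-- Piece GRO: growth of a polynomial. -/
def S_GRO : Prop := ∀ P : Polynomial ℤ, ∃ C : ℕ, ∀ n : ℕ, 1 ≤ n → |P.eval (n : ℤ)| ≤ C * (n : ℤ) ^ P.natDegree

end Pool.Agent.K1H88.GT
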