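import Pool.Agent.K1H88.GT.Stm2

set_option autoImplicit false

namespace Pool.Agent.K1H88.GT

open Finset MeasureTheory Filter

namespace BC

lemma fa_cont (φ : ℕ → ℤ) (n : ℕ) : Continuous (fun α : ℝ => fa φ α n) := by
  unfold fa
  fun_prop

lemma fa_norm (φ : ℕ → ℤ) (α : ℝ) (n : ℕ) : ‖fa φ α n‖ ^ 2 = if Squarefree n then 1 else 0 := by
  unfold fa
  have h0 : ‖Complex.exp (2 * Real.pi * Complex.I * (α * (φ n : ℝ) : ℝ))‖ = 1 := by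
    rw [show (2 * Real.pi * Complex.I * ((α * (φ n : ℝ) : ℝ) : ℂ)) =
      ((2 * Real.pi * (α * (φ n : ℝ)) : ℝ) : ℂ) * Complex.I by push_cast; ring]
    exact Complex.norm_exp_ofReal_mul_I _
  rw [norm_mul, h0, mul_one]
  split_ifs with h
  · rcases ArithmeticFunction.moebius_ne_zero_iff_eq_or.1
      (ArithmeticFunction.moebius_ne_zero_iff_squarefree.2 h) with h2 | h2 <;> rw [h2] <;> simp
  · rw [ArithmeticFunction.moebius_eq_zero_of_not_squarefree h]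
    simp

lemma fa_period (φ : ℕ → ℤ) (α : ℝ) (k : ℤ) : fa φ (α + k) = fa φ α := by
  funext n
  unfold fa
  congr 1
  rw [show (2 * Real.pi * Complex.I * (((α + k) * (φ n : ℝ) : ℝ) : ℂ)) =
    2 * Real.pi * Complex.I * ((α * (φ n : ℝ) : ℝ) : ℂ) + ((k * φ n : ℤ) : ℂ) * (2 * Real.pi * Complex.I) by
      push_cast; ring]
  exact Complex.exp_periodic.int_mul (k * φ n) _

/-- the conclusion for one `α` -/
def Good (φ : ℕ → ℤ) (ε δ α : ℝ) : Prop := ∃ X0 : ℝ, 1 ≤ X0 ∧ ∀ X H : ℝ, X0 ≤ X → 1 ≤ H → H ≤ X ^ (1 - ε) →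
  |VV (fa φ α) X H - 6 / Real.pi ^ 2 * H| ≤ H * X ^ (-δ)

lemma good_period {φ : ℕ → ℤ} {ε δ α : ℝ} {k : ℤ} (h : Good φ ε δ (α + k)) : Good φ ε δ α := by
  obtain ⟨X0, h1, h2⟩ := h
  refine ⟨X0, h1, fun X H h3 h4 h5 => ?_⟩
  have := h2 X H h3 h4 h5
  rwa [fa_period] at this

lemma ae_of_unit {φ : ℕ → ℤ} {ε δ : ℝ} (h : ∀ᵐ α ∂(volume.restrict (Set.Ioc (0 : ℝ) 1)), Good φ ε δ α) :
    ∀ᵐ α : ℝ, Good φ ε δ α := by
  rw [ae_restrict_iff' measurableSet_Ioc] at h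
  have h2 : ∀ k : ℤ, ∀ᵐ α : ℝ, (α + k ∈ Set.Ioc (0 : ℝ) 1 → Good φ ε δ (α + k)) := by
    intro k
    exact (measurePreserving_add_right volume (k : ℝ)).quasiMeasurePreserving.ae h
  rw [← ae_all_iff] at h2
  filter_upwards [h2] with α hα
  refine good_period (hα (-⌈α⌉ + 1) ?_)
  constructor
  · have := Int.ceil_lt_add_one α
    push_cast
    linarith
  · have := Int.le_ceil α
    push_cast
    linarith

/-- the number of summands -/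
noncomputable def JP (ε : ℝ) (k : ℕ) : ℕ := ⌊(2 * ((2 ^ k : ℕ) : ℝ)) ^ (1 - ε)⌋₊

/-- the exceptional set of one dyadic block -/
def EP (φ : ℕ → ℤ) (ε δ C : ℝ) (k : ℕ) : Set ℝ :=
  {α | ∃ X H : ℝ, ((2 ^ k : ℕ) : ℝ) ≤ X ∧ X ≤ 2 * ((2 ^ k : ℕ) : ℝ) ∧ 1 ≤ H ∧ H ≤ X ∧ ⌊H⌋₊ ≤ JP ε k ∧
        C * H * X ^ (-δ) < |VV (fa φ α) X H - 6 / Real.pi ^ 2 * H|}

lemma moment {ε : ℝ} (he : 0 < ε) (he1 : ε ≤ 1 / 4) {φ : ℕ → ℤ} {C0 : ℝ} (hC0 : 0 ≤ C0)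
    (hC : ∀ A B j : ℕ, 1 ≤ j → j ≤ A → A ≤ B → ((solP φ A B j).card : ℝ) ≤ C0 * (B : ℝ) ^ (1 + ε / 2) * j)
    (hM : S_MOMP) {N J : ℕ} (hN : 1 ≤ N) (hJ1 : (J : ℝ) ≤ (2 * (N : ℝ)) ^ (1 - ε))
    (U1 U2 j : ℕ) (hU12 : U1 ≤ U2) (hU : U2 ≤ 6 * N) (hj : 1 ≤ j) (hjJ : j ≤ J) :
    ∫ ω, ‖ZZ (fa φ ω) U1 U2 j‖ ^ 2 ∂(volume.restrict (Set.Ioc (0 : ℝ) 1)) ≤
      (128 * C0) * (N : ℝ) ^ (2 - ε / 2) := by
  rw [← intervalIntegral.integral_of_le (by norm_num)]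
  refine le_trans (hM φ U1 U2 j) ?_
  have hN1 : (1 : ℝ) ≤ N := by exact_mod_cast hN
  have hjr : (1 : ℝ) ≤ j := by exact_mod_cast hj
  have hjJr : (j : ℝ) ≤ J := by exact_mod_cast hjJ
  have h1 := hC (U1 + j) (U2 + j) j hj (by omega) (by omega)
  have hJN : (J : ℝ) ≤ 2 * N := by
    refine le_trans hJ1 ?_
    calc (2 * (N : ℝ)) ^ (1 - ε) ≤ (2 * (N : ℝ)) ^ (1 : ℝ) :=
          Real.rpow_le_rpow_of_exponent_le (by linarith) (by linarith)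
      _ = 2 * N := Real.rpow_one _
  have hB : ((U2 + j : ℕ) : ℝ) ≤ 8 * N := by
    have : (U2 : ℝ) ≤ 6 * N := by exact_mod_cast hU
    push_cast
    linarith
  have hB0 : (0 : ℝ) ≤ ((U2 + j : ℕ) : ℝ) := Nat.cast_nonneg _
  have h3 : ((U2 + j : ℕ) : ℝ) ^ (1 + ε / 2) ≤ 64 * (N : ℝ) ^ (1 + ε / 2) := by
    calc ((U2 + j : ℕ) : ℝ) ^ (1 + ε / 2) ≤ (8 * (N : ℝ)) ^ (1 + ε / 2) :=
          Real.rpow_le_rpow hB0 hB (by linarith)
      _ = 8 ^ (1 + ε / 2) * (N : ℝ) ^ (1 + ε / 2) := Real.mul_rpow (by norm_num) (by linarith)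
      _ ≤ 8 ^ (2 : ℝ) * (N : ℝ) ^ (1 + ε / 2) := by
          gcongr
          · norm_num
          · linarith
      _ = 64 * (N : ℝ) ^ (1 + ε / 2) := by norm_num
  have hP : 0 ≤ (N : ℝ) ^ (1 + ε / 2) := Real.rpow_nonneg (by linarith) _
  have e1 : (N : ℝ) ^ (1 + ε / 2) * j ≤ 2 * (N : ℝ) ^ (2 - ε / 2) := by
    have : (j : ℝ) ≤ 2 * (N : ℝ) ^ (1 - ε) := by
      refine le_trans hjJr (le_trans hJ1 ?_)
      rw [Real.mul_rpow (by norm_num) (by linarith)]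
      gcongr
      calc (2 : ℝ) ^ (1 - ε) ≤ 2 ^ (1 : ℝ) := Real.rpow_le_rpow_of_exponent_le (by norm_num) (by linarith)
        _ = 2 := Real.rpow_one _
    calc (N : ℝ) ^ (1 + ε / 2) * j ≤ (N : ℝ) ^ (1 + ε / 2) * (2 * (N : ℝ) ^ (1 - ε)) := by gcongr
      _ = 2 * ((N : ℝ) ^ (1 + ε / 2) * (N : ℝ) ^ (1 - ε)) := by ring
      _ = 2 * (N : ℝ) ^ (2 - ε / 2) := by
          rw [← Real.rpow_add (by linarith)]
          congr 2
          ring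
  calc ((solP φ (U1 + j) (U2 + j) j).card : ℝ) ≤ C0 * ((U2 + j : ℕ) : ℝ) ^ (1 + ε / 2) * j := h1
    _ ≤ C0 * (64 * (N : ℝ) ^ (1 + ε / 2)) * j := by gcongr
    _ = 64 * C0 * ((N : ℝ) ^ (1 + ε / 2) * j) := by ring
    _ ≤ 64 * C0 * (2 * (N : ℝ) ^ (2 - ε / 2)) := by gcongr
    _ = (128 * C0) * (N : ℝ) ^ (2 - ε / 2) := by ring

end BC

open BC in
/-- **Piece BC.** -/
theorem t_BC (hU : S_UNI) (hM : S_MOMP) : ∀ ε : ℝ, 0 < ε → ∃ δ : ℝ, 0 < δ ∧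
    ∀ φ : ℕ → ℤ, Few φ → ∀ᵐ α : ℝ, Good φ ε δ α := by
  intro ε' he'
  obtain ⟨ε, hε⟩ : ∃ ε, ε = min ε' (1 / 4) := ⟨_, rfl⟩
  have he : 0 < ε := by rw [hε]; exact lt_min he' (by norm_num)
  have he1 : ε ≤ 1 / 4 := by rw [hε]; exact min_le_right _ _
  have hee : ε ≤ ε' := by rw [hε]; exact min_le_left _ _
  obtain ⟨δ, hδ, C, hC1, hU⟩ := hU (ε / 2) (by linarith) (by linarith)
  refine ⟨δ / 2, by linarith, ?_⟩
  intro φ hφ
  apply ae_of_unit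
  obtain ⟨C0, hC0, hC⟩ := hφ (ε / 2) (by linarith)
  obtain ⟨r, hr⟩ : ∃ r : ℝ, r = 2 ^ (-(ε / 2 / 2)) := ⟨_, rfl⟩
  have hr0 : 0 ≤ r := by rw [hr]; positivity
  have hr1 : r < 1 := by
    rw [hr]; exact Real.rpow_lt_one_of_one_lt_of_neg (by norm_num) (by linarith)
  have hJP : ∀ k, (JP ε k : ℝ) ≤ (2 * ((2 ^ k : ℕ) : ℝ)) ^ (1 - ε) := fun k =>
    Nat.floor_le (by positivity)
  have hBk : ∀ k, (volume.restrict (Set.Ioc (0 : ℝ) 1)) (EP φ ε δ C k) ≤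
      ENNReal.ofReal (C * (128 * C0) * r ^ k) := by
    intro k
    have hN1 : 1 ≤ 2 ^ k := Nat.one_le_two_pow
    have hb := hU ℝ (volume.restrict (Set.Ioc (0 : ℝ) 1)) (fun α => fa φ α)
      (fun n => (fa_cont φ n).measurable) (fa_norm φ) (2 ^ k) (JP ε k) (128 * C0) hN1 ?_ (by positivity) ?_
    · refine le_trans hb ?_
      apply ENNReal.ofReal_le_ofReal
      apply le_of_eq
      congr 1
      push_cast
      rw [hr, ← Real.rpow_natCast, ← Real.rpow_mul (by norm_num), ← Real.rpow_natCast,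
        ← Real.rpow_mul (by norm_num)]
      congr 1; ring
    · have h9 : (JP ε k : ℝ) ≤ 2 * ((2 ^ k : ℕ) : ℝ) := by
        refine le_trans (hJP k) ?_
        have h10 : (1 : ℝ) ≤ ((2 ^ k : ℕ) : ℝ) := by exact_mod_cast hN1
        calc (2 * ((2 ^ k : ℕ) : ℝ)) ^ (1 - ε) ≤ (2 * ((2 ^ k : ℕ) : ℝ)) ^ (1 : ℝ) :=
              Real.rpow_le_rpow_of_exponent_le (by linarith) (by linarith)
          _ = 2 * ((2 ^ k : ℕ) : ℝ) := Real.rpow_one _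
      exact_mod_cast h9
    · intro U1 U2 j hU12 hU2 hj hjJ
      exact moment he he1 hC0 hC hM hN1 (hJP k) U1 U2 j hU12 hU2 hj hjJ
  have hfin : (∑' k, (volume.restrict (Set.Ioc (0 : ℝ) 1)) (EP φ ε δ C k)) ≠ ⊤ := by
    have h1 : ∑' k, (volume.restrict (Set.Ioc (0 : ℝ) 1)) (EP φ ε δ C k) ≤
        ∑' k, ENNReal.ofReal (C * (128 * C0) * r ^ k) := ENNReal.tsum_le_tsum hBk
    exact ne_top_of_le_ne_top
      (((summable_geometric_of_lt_one hr0 hr1).mul_left (C * (128 * C0))).tsum_ofReal_ne_top) h1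
  filter_upwards [ae_eventually_notMem hfin] with α hα
  obtain ⟨K, hK⟩ := eventually_atTop.1 hα
  obtain ⟨X1, hX1⟩ := eventually_atTop.1
    ((tendsto_rpow_atTop (show (0 : ℝ) < δ / 2 by positivity)).eventually_ge_atTop C)
  refine ⟨max (2 ^ (K + 1)) X1, le_max_of_le_left (one_le_pow₀ (by norm_num)), ?_⟩
  intro X H hX hH hHX
  have hXK : (2 : ℝ) ^ (K + 1) ≤ X := (le_max_left _ _).trans hX
  have hXX := hX1 X ((le_max_right _ _).trans hX)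
  have hX1' : 1 ≤ X := (one_le_pow₀ (by norm_num)).trans hXK
  have hX0 : 0 < X := by linarith
  obtain ⟨k, hk1, hk2'⟩ := exists_nat_pow_near hX1' (by norm_num : (1 : ℝ) < 2)
  have hk2 : X ≤ 2 * 2 ^ k := by rw [pow_succ] at hk2'; linarith
  have hKk : K ≤ k := by
    by_contra h
    have h1 : k + 1 ≤ K := by omega
    have h2 : (2 : ℝ) ^ (k + 1) ≤ 2 ^ K := pow_le_pow_right₀ (by norm_num) h1
    have h3 : (2 : ℝ) ^ K ≤ 2 ^ (K + 1) := pow_le_pow_right₀ (by norm_num) (by omega)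
    linarith
  have hnb := hK k hKk
  have hH' : H ≤ X ^ (1 - ε) := hHX.trans (Real.rpow_le_rpow_of_exponent_le hX1' (by linarith))
  have h5 : |VV (fa φ α) X H - 6 / Real.pi ^ 2 * H| ≤ C * H * X ^ (-δ) := by
    by_contra hlt
    apply hnb
    refine ⟨X, H, ?_, ?_, hH, ?_, ?_, not_le.1 hlt⟩
    · push_cast; exact hk1
    · push_cast; exact hk2
    · refine hH'.trans ?_
      calc X ^ (1 - ε) ≤ X ^ (1 : ℝ) := Real.rpow_le_rpow_of_exponent_le hX1' (by linarith)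
        _ = X := Real.rpow_one X
    · unfold JP
      apply Nat.floor_mono
      push_cast
      exact hH'.trans (Real.rpow_le_rpow hX0.le hk2 (by linarith))
  calc |VV (fa φ α) X H - 6 / Real.pi ^ 2 * H| ≤ C * H * X ^ (-δ) := h5
    _ ≤ X ^ (δ / 2) * H * X ^ (-δ) := by gcongr
    _ = H * (X ^ (δ / 2) * X ^ (-δ)) := by ring
    _ = H * X ^ (-(δ / 2)) := by
        rw [← Real.rpow_add hX0]
        congr 2
        ring

end Pool.Agent.K1H88.GT
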