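import Pool.Agent.K1H88.GT.Stm

set_option autoImplicit false

namespace Pool.Agent.K1H88.GT

open Finset MeasureTheory

namespace FINT

lemma ta_meas (n : ℕ) : Measurable (fun t : ℝ => ta t n) := by
  unfold ta
  fun_prop

lemma ta_norm (t : ℝ) (n : ℕ) : ‖ta t n‖ ^ 2 = if Squarefree n then 1 else 0 := by
  unfold ta
  split_ifs with h
  · have hn : 0 < n := Nat.pos_of_ne_zero (fun h0 => by rw [h0] at h; exact not_squarefree_zero h)
    rw [norm_mul, Complex.norm_natCast_cpow_of_pos hn]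
    have h1 : ((t : ℂ) * Complex.I).re = 0 := by simp
    rw [h1, Real.rpow_zero, mul_one]
    rcases ArithmeticFunction.moebius_ne_zero_iff_eq_or.1
      (ArithmeticFunction.moebius_ne_zero_iff_squarefree.2 h) with h2 | h2 <;> rw [h2] <;> simp
  · rw [ArithmeticFunction.moebius_eq_zero_of_not_squarefree h]
    simp

lemma mono_eps {ε ε1 δ C T : ℝ} (hT : 1 ≤ T) (he : ε1 ≤ ε) (h0 : 0 < ε1) :
    ExT ε δ C T ⊆ ExT ε1 δ C T := by
  rintro t ⟨h1, h2, X, H, h3, h4, h5, h6, h7⟩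
  have hX : 1 ≤ X := by
    refine le_trans ?_ h3
    exact Real.one_le_rpow hT (by linarith)
  refine ⟨h1, h2, X, H, ?_, h4, ?_, ?_, h7⟩
  · exact le_trans (Real.rpow_le_rpow_of_exponent_le hT he) h3
  · exact le_trans h5 (Real.rpow_le_rpow_of_exponent_le hX (by linarith))
  · exact le_trans h6 (Real.rpow_le_rpow_of_exponent_le hT (by linarith))

lemma mono_dc {ε δ δ' C C' T : ℝ} (hT : 1 ≤ T) (h0 : 0 < ε) (hd : δ' ≤ δ) (hC : C ≤ C') (hC0 : 0 ≤ C) :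
    ExT ε δ' C' T ⊆ ExT ε δ C T := by
  rintro t ⟨h1, h2, X, H, h3, h4, h5, h6, h7⟩
  have hX : 1 ≤ X := le_trans (Real.one_le_rpow hT h0.le) h3
  refine ⟨h1, h2, X, H, h3, h4, h5, h6, lt_of_le_of_lt ?_ h7⟩
  have h8 : X ^ (-δ) ≤ X ^ (-δ') := Real.rpow_le_rpow_of_exponent_le hX (by linarith)
  have h9 : 0 ≤ X ^ (-δ) := Real.rpow_nonneg (by linarith) _
  have h10 : 0 ≤ H := by linarith
  have h11 : C * H ≤ C' * H := mul_le_mul_of_nonneg_right hC h10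
  calc C * H * X ^ (-δ) ≤ C' * H * X ^ (-δ) := mul_le_mul_of_nonneg_right h11 h9
    _ ≤ C' * H * X ^ (-δ') := mul_le_mul_of_nonneg_left h8 (mul_nonneg (le_trans hC0 hC) h10)

/-- the second moment in the range needed -/
lemma moment {ε : ℝ} (he : 0 < ε) (he1 : ε ≤ 1 / 4) {C0 : ℝ} (hC0 : 0 ≤ C0)
    (hC : ∀ A B j : ℕ, 1 ≤ j → j ≤ B →
      (((quad A B j).filter (fun p => det p = 0)).card : ℝ) ≤ C0 * (B : ℝ) ^ (1 + ε / 2) * j ∧
      ∑ p ∈ (quad A B j).filter (fun p => det p ≠ 0), 1 / |(det p : ℝ)| ≤ C0 * (B : ℝ) ^ (1 + ε / 2) * j)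
    (hM : S_MOMT) {T : ℝ} (hT : 1 ≤ T) {N J : ℕ} (hN : 1 ≤ N) (hNT : (N : ℝ) ≤ T)
    (hJ1 : (J : ℝ) ≤ (2 * (N : ℝ)) ^ (1 - ε)) (hJ2 : (J : ℝ) * N ≤ T ^ (1 - ε))
    (U1 U2 j : ℕ) (hU : U2 ≤ 6 * N) (hj : 1 ≤ j) (hjJ : j ≤ J) :
    ∫ ω, ‖ZZ (ta ω) U1 U2 j‖ ^ 2 ∂(volume.restrict (Set.Ioc T (2 * T))) ≤
      (8320 * C0 * T) * (N : ℝ) ^ (2 - ε / 2) := by
  have hT0 : 0 < T := by linarith
  rw [← intervalIntegral.integral_of_le (by linarith)]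
  refine le_trans (hM T U1 U2 j hT0) ?_
  have hN1 : (1 : ℝ) ≤ N := by exact_mod_cast hN
  have hjr : (1 : ℝ) ≤ j := by exact_mod_cast hj
  have hjJr : (j : ℝ) ≤ J := by exact_mod_cast hjJ
  obtain ⟨h1, h2⟩ := hC (U1 + j) (U2 + j) j hj (by omega)
  have hJN : (J : ℝ) ≤ 2 * N := by
    refine le_trans hJ1 ?_
    calc (2 * (N : ℝ)) ^ (1 - ε) ≤ (2 * (N : ℝ)) ^ (1 : ℝ) :=
          Real.rpow_le_rpow_of_exponent_le (by linarith) (by linarith)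
      _ = 2 * N := Real.rpow_one _
  have hB : ((U2 + j : ℕ) : ℝ) ≤ 8 * N := by
    have : (U2 : ℝ) ≤ 6 * N := by exact_mod_cast hU
    push_cast
    linarith
  have hB0 : (0 : ℝ) ≤ ((U2 + j : ℕ) : ℝ) := Nat.cast_nonneg _
  have h3 : ((U2 + j : ℕ) : ℝ) ^ (1 + ε / 2) ≤ 64 * (N : ℝ) ^ (1 + ε / 2) := by
    calc ((U2 + j : ℕ) : ℝ) ^ (1 + ε / 2) ≤ (8 * (N : ℝ)) ^ (1 + ε / 2) :=
          Real.rpow_le_rpow hB0 hB (by linarith)
      _ = 8 ^ (1 + ε / 2) * (N : ℝ) ^ (1 + ε / 2) := Real.mul_rpow (by norm_num) (by linarith)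
      _ ≤ 8 ^ (2 : ℝ) * (N : ℝ) ^ (1 + ε / 2) := by
          gcongr
          · norm_num
          · linarith
      _ = 64 * (N : ℝ) ^ (1 + ε / 2) := by norm_num
  have hP : 0 ≤ (N : ℝ) ^ (1 + ε / 2) := Real.rpow_nonneg (by linarith) _
  have h4 : C0 * ((U2 + j : ℕ) : ℝ) ^ (1 + ε / 2) * j ≤ C0 * (64 * (N : ℝ) ^ (1 + ε / 2)) * j := by
    gcongr
  have h5 : ((U2 : ℝ) + j) ^ 2 ≤ 64 * (N : ℝ) ^ 2 := by
    have : (U2 : ℝ) + j ≤ 8 * N := by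
      have := hB; push_cast at this; exact this
    calc ((U2 : ℝ) + j) ^ 2 ≤ (8 * (N : ℝ)) ^ 2 := by gcongr
      _ = 64 * (N : ℝ) ^ 2 := by ring
  -- the two terms
  have e1 : (N : ℝ) ^ (1 + ε / 2) * j ≤ 2 * (N : ℝ) ^ (2 - ε / 2) := by
    have : (j : ℝ) ≤ 2 * (N : ℝ) ^ (1 - ε) := by
      refine le_trans hjJr (le_trans hJ1 ?_)
      rw [Real.mul_rpow (by norm_num) (by linarith)]
      gcongr
      calc (2 : ℝ) ^ (1 - ε) ≤ 2 ^ (1 : ℝ) := Real.rpow_le_rpow_of_exponent_le (by norm_num) (by linarith)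
        _ = 2 := Real.rpow_one _
    calc (N : ℝ) ^ (1 + ε / 2) * j ≤ (N : ℝ) ^ (1 + ε / 2) * (2 * (N : ℝ) ^ (1 - ε)) := by gcongr
      _ = 2 * ((N : ℝ) ^ (1 + ε / 2) * (N : ℝ) ^ (1 - ε)) := by ring
      _ = 2 * (N : ℝ) ^ (2 - ε / 2) := by
          rw [← Real.rpow_add (by linarith)]
          congr 2
          ring
  have e2 : (N : ℝ) ^ 2 * ((N : ℝ) ^ (1 + ε / 2) * j) ≤ T * (N : ℝ) ^ (2 - ε / 2) := by
    have hjN : (j : ℝ) * N ≤ T ^ (1 - ε) := le_trans (by gcongr) hJ2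
    have e3 : (N : ℝ) ^ ε ≤ T ^ ε := Real.rpow_le_rpow (by linarith) hNT he.le
    calc (N : ℝ) ^ 2 * ((N : ℝ) ^ (1 + ε / 2) * j) = (N : ℝ) ^ (1 + ε / 2) * N * (j * N) := by ring
      _ ≤ (N : ℝ) ^ (1 + ε / 2) * N * T ^ (1 - ε) := by gcongr
      _ = (N : ℝ) ^ (2 + ε / 2) * T ^ (1 - ε) := by
          congr 1
          nth_rw 2 [← Real.rpow_one (N : ℝ)]
          rw [← Real.rpow_add (by linarith)]
          congr 1
          ring
      _ = (N : ℝ) ^ (2 - ε / 2) * ((N : ℝ) ^ ε * T ^ (1 - ε)) := by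
          rw [← mul_assoc, ← Real.rpow_add (by linarith)]
          congr 2
          ring
      _ ≤ (N : ℝ) ^ (2 - ε / 2) * (T ^ ε * T ^ (1 - ε)) := by gcongr
      _ = T * (N : ℝ) ^ (2 - ε / 2) := by
          rw [← Real.rpow_add hT0]
          rw [show ε + (1 - ε) = 1 by ring, Real.rpow_one, mul_comm]
  have hS0 : 0 ≤ ∑ p ∈ (quad (U1 + j) (U2 + j) j).filter (fun p => det p ≠ 0), 1 / |(det p : ℝ)| :=
    sum_nonneg fun p _ => by positivity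
  calc T * (((quad (U1 + j) (U2 + j) j).filter (fun p => det p = 0)).card : ℝ) +
      2 * ((U2 : ℝ) + j) ^ 2 *
        ∑ p ∈ (quad (U1 + j) (U2 + j) j).filter (fun p => det p ≠ 0), 1 / |(det p : ℝ)|
      ≤ T * (C0 * (64 * (N : ℝ) ^ (1 + ε / 2)) * j) + 2 * (64 * (N : ℝ) ^ 2) *
        (C0 * (64 * (N : ℝ) ^ (1 + ε / 2)) * j) := by
        gcongr
        · exact le_trans h1 h4
        · exact le_trans h2 h4
    _ = 64 * C0 * T * ((N : ℝ) ^ (1 + ε / 2) * j) +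
        8192 * C0 * ((N : ℝ) ^ 2 * ((N : ℝ) ^ (1 + ε / 2) * j)) := by ring
    _ ≤ 64 * C0 * T * (2 * (N : ℝ) ^ (2 - ε / 2)) + 8192 * C0 * (T * (N : ℝ) ^ (2 - ε / 2)) := by
        gcongr
    _ = (8320 * C0 * T) * (N : ℝ) ^ (2 - ε / 2) := by ring

/-- the indices `k` with `T ^ ε / 2 ≤ 2 ^ k ≤ T` -/
noncomputable def KK (ε T : ℝ) : Finset ℕ :=
  (range (⌊Real.logb 2 T⌋₊ + 1)).filter (fun k => T ^ ε / 2 ≤ (2 : ℝ) ^ k ∧ (2 : ℝ) ^ k ≤ T)

/-- the number of summands -/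
noncomputable def JJ (ε T : ℝ) (N : ℕ) : ℕ := ⌊min ((2 * (N : ℝ)) ^ (1 - ε)) (T ^ (1 - ε) / N)⌋₊

/-- the exceptional set of one dyadic block -/
def EE (ε δ C T : ℝ) (N : ℕ) : Set ℝ :=
  {t | ∃ X H : ℝ, (N : ℝ) ≤ X ∧ X ≤ 2 * N ∧ 1 ≤ H ∧ H ≤ X ∧ ⌊H⌋₊ ≤ JJ ε T N ∧
        C * H * X ^ (-δ) < |VV (ta t) X H - 6 / Real.pi ^ 2 * H|}

lemma JJ1 {ε T : ℝ} (hT : 1 ≤ T) {N : ℕ} : (JJ ε T N : ℝ) ≤ (2 * (N : ℝ)) ^ (1 - ε) := by
  refine le_trans (Nat.floor_le ?_) (min_le_left _ _)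
  refine le_min ?_ ?_
  · positivity
  · positivity

lemma JJ2 {ε T : ℝ} (hT : 1 ≤ T) {N : ℕ} (hN : 1 ≤ N) : (JJ ε T N : ℝ) * N ≤ T ^ (1 - ε) := by
  have hN0 : (0 : ℝ) < N := by exact_mod_cast hN
  have : (JJ ε T N : ℝ) ≤ T ^ (1 - ε) / N := by
    refine le_trans (Nat.floor_le ?_) (min_le_right _ _)
    refine le_min ?_ ?_
    · positivity
    · positivity
  rwa [le_div_iff₀ hN0] at this

lemma cover {ε δ C T : ℝ} (he : 0 < ε) (he1 : ε ≤ 1 / 4) (hT : 1 ≤ T) :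
    ExT ε δ C T ⊆ {T} ∪ ⋃ k ∈ KK ε T, (EE ε δ C T (2 ^ k) ∩ Set.Ioc T (2 * T)) := by
  rintro t ⟨h1, h2, X, H, h3, h4, h5, h6, h7⟩
  rcases eq_or_lt_of_le h1 with h | h
  · left; exact h.symm
  right
  have hT0 : 0 < T := by linarith
  have hX : 1 ≤ X := le_trans (Real.one_le_rpow hT he.le) h3
  have hXT : X ≤ T := by
    calc X = X * 1 := (mul_one X).symm
      _ ≤ X * H := by gcongr
      _ ≤ T ^ (1 - ε) := h6
      _ ≤ T ^ (1 : ℝ) := Real.rpow_le_rpow_of_exponent_le hT (by linarith)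
      _ = T := Real.rpow_one T
  obtain ⟨k, hk1, hk2⟩ := exists_nat_pow_near hX (by norm_num : (1 : ℝ) < 2)
  have hk2' : X ≤ 2 * 2 ^ k := by rw [pow_succ] at hk2; linarith
  have hkT : (2 : ℝ) ^ k ≤ T := le_trans hk1 hXT
  have hkpos : (0 : ℝ) < 2 ^ k := by positivity
  rw [Set.mem_iUnion₂]
  refine ⟨k, ?_, ?_, h, h2⟩
  · unfold KK
    rw [mem_filter, mem_range]
    refine ⟨?_, ?_, hkT⟩
    · rw [Nat.lt_succ_iff]
      apply Nat.le_floor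
      rw [Real.le_logb_iff_rpow_le (by norm_num) hT0, Real.rpow_natCast]
      exact hkT
    · linarith
  · refine ⟨X, H, ?_, ?_, h4, ?_, ?_, h7⟩
    · push_cast; exact hk1
    · push_cast; exact hk2'
    · refine le_trans h5 ?_
      calc X ^ (1 - ε) ≤ X ^ (1 : ℝ) := Real.rpow_le_rpow_of_exponent_le hX (by linarith)
        _ = X := Real.rpow_one X
    · unfold JJ
      apply Nat.floor_mono
      push_cast
      refine le_min ?_ ?_
      · refine le_trans h5 ?_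
        exact Real.rpow_le_rpow (by linarith) hk2' (by linarith)
      · rw [le_div_iff₀ hkpos]
        calc H * 2 ^ k ≤ H * X := by gcongr
          _ = X * H := mul_comm _ _
          _ ≤ T ^ (1 - ε) := h6

lemma card_KK {ε T : ℝ} (hT : 1 ≤ T) : ((KK ε T).card : ℝ) ≤ 1 + 2 * Real.log T := by
  have h1 : (KK ε T).card ≤ ⌊Real.logb 2 T⌋₊ + 1 := by
    refine le_trans (card_filter_le _ _) ?_
    rw [card_range]
  have h2 : (⌊Real.logb 2 T⌋₊ : ℝ) ≤ Real.logb 2 T :=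
    Nat.floor_le (Real.logb_nonneg (by norm_num) hT)
  have h3 : Real.logb 2 T ≤ 2 * Real.log T := by
    rw [Real.logb, div_le_iff₀ (Real.log_pos (by norm_num))]
    have := Real.log_two_gt_d9
    nlinarith [Real.log_nonneg hT]
  have h4 : ((KK ε T).card : ℝ) ≤ (⌊Real.logb 2 T⌋₊ : ℝ) + 1 := by exact_mod_cast h1
  linarith

end FINT

open FINT in
theorem t_FINT (hU : S_UNI) (hC : S_CNTT) (hM : S_MOMT) : S_FINT := by
  intro ε' he'
  obtain ⟨ε, hε⟩ : ∃ ε, ε = min ε' (1 / 4) := ⟨_, rfl⟩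
  have he : 0 < ε := by rw [hε]; exact lt_min he' (by norm_num)
  have he1 : ε ≤ 1 / 4 := by rw [hε]; exact min_le_right _ _
  have hee : ε ≤ ε' := by rw [hε]; exact min_le_left _ _
  obtain ⟨C0, hC0, hC⟩ := hC (ε / 2) (by linarith)
  obtain ⟨δ, hδ, C, hC1, hU⟩ := hU (ε / 2) (by linarith) (by linarith)
  obtain ⟨M0, hM0⟩ : ∃ M0, M0 = 8320 * C0 := ⟨_, rfl⟩
  have hM00 : 0 ≤ M0 := by rw [hM0]; positivity
  obtain ⟨γ, hγ⟩ : ∃ γ, γ = ε * (ε / 4) / 2 := ⟨_, rfl⟩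
  have hγ0 : 0 < γ := by rw [hγ]; positivity
  obtain ⟨C2, hC2⟩ : ∃ C2, C2 = (1 + 2 / γ) * (C * M0 * 2) := ⟨_, rfl⟩
  have hC20 : 0 ≤ C2 := by rw [hC2]; positivity
  refine ⟨min δ γ, lt_min hδ hγ0, max C (max C2 1), by positivity, ?_⟩
  intro T hT
  have hT0 : 0 < T := by linarith
  have s1 : ExT ε' (min δ γ) (max C (max C2 1)) T ⊆ ExT ε δ C T :=
    (mono_eps hT hee he).trans (mono_dc hT he (min_le_left _ _) (le_max_left _ _) (by linarith))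
  refine le_trans (measure_mono (s1.trans (cover he he1 hT))) ?_
  refine le_trans (measure_union_le _ _) ?_
  rw [Real.volume_singleton, zero_add]
  refine le_trans (measure_biUnion_finset_le _ _) ?_
  have key : ∀ k ∈ KK ε T, volume (EE ε δ C T (2 ^ k) ∩ Set.Ioc T (2 * T)) ≤
      ENNReal.ofReal (C * M0 * 2 * T ^ (1 - 2 * γ)) := by
    intro k hk
    unfold KK at hk
    rw [mem_filter] at hk
    obtain ⟨-, hk1, hk2⟩ := hk
    have hkpos : (0 : ℝ) < 2 ^ k := by positivity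
    have hN1 : 1 ≤ 2 ^ k := Nat.one_le_two_pow
    have hb := hU ℝ (volume.restrict (Set.Ioc T (2 * T))) (fun t => ta t) ta_meas ta_norm
      (2 ^ k) (JJ ε T (2 ^ k)) (8320 * C0 * T) hN1 ?_ (by positivity) ?_
    · rw [Measure.restrict_apply' measurableSet_Ioc] at hb
      refine le_trans hb ?_
      apply ENNReal.ofReal_le_ofReal
      have h8 : ((2 ^ k : ℕ) : ℝ) ^ (-(ε / 2 / 2)) ≤ 2 * T ^ (-(2 * γ)) := by
        push_cast
        calc ((2 : ℝ) ^ k) ^ (-(ε / 2 / 2)) ≤ (T ^ ε / 2) ^ (-(ε / 2 / 2)) :=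
              Real.rpow_le_rpow_of_nonpos (by positivity) hk1 (by linarith)
          _ = (T ^ ε) ^ (-(ε / 2 / 2)) / 2 ^ (-(ε / 2 / 2)) := Real.div_rpow (by positivity) (by norm_num) _
          _ = (T ^ ε) ^ (-(ε / 2 / 2)) * 2 ^ (ε / 2 / 2) := by
              rw [Real.rpow_neg (by norm_num : (0:ℝ) ≤ 2), div_inv_eq_mul]
          _ ≤ (T ^ ε) ^ (-(ε / 2 / 2)) * 2 ^ (1 : ℝ) := by
              gcongr
              · norm_num
              · linarith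
          _ = 2 * T ^ (-(2 * γ)) := by
              rw [← Real.rpow_mul hT0.le, Real.rpow_one, mul_comm, hγ]
              congr 2
              ring
      calc C * (8320 * C0 * T) * ((2 ^ k : ℕ) : ℝ) ^ (-(ε / 2 / 2))
          ≤ C * (8320 * C0 * T) * (2 * T ^ (-(2 * γ))) := by gcongr
        _ = C * M0 * 2 * (T ^ (1 : ℝ) * T ^ (-(2 * γ))) := by rw [hM0, Real.rpow_one]; ring
        _ = C * M0 * 2 * T ^ (1 - 2 * γ) := by
            rw [← Real.rpow_add hT0]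
            rfl
    · have h9 : (JJ ε T (2 ^ k) : ℝ) ≤ 2 * ((2 ^ k : ℕ) : ℝ) := by
        refine le_trans (JJ1 hT) ?_
        have h10 : (1 : ℝ) ≤ ((2 ^ k : ℕ) : ℝ) := by exact_mod_cast hN1
        calc (2 * ((2 ^ k : ℕ) : ℝ)) ^ (1 - ε) ≤ (2 * ((2 ^ k : ℕ) : ℝ)) ^ (1 : ℝ) :=
              Real.rpow_le_rpow_of_exponent_le (by linarith) (by linarith)
          _ = 2 * ((2 ^ k : ℕ) : ℝ) := Real.rpow_one _
      exact_mod_cast h9
    · intro U1 U2 j _ hU2 hj hjJ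
      exact moment he he1 hC0 hC hM hT hN1 (by push_cast; exact hk2) (JJ1 hT) (JJ2 hT hN1) U1 U2 j hU2 hj hjJ
  refine le_trans (Finset.sum_le_sum key) ?_
  rw [Finset.sum_const, nsmul_eq_mul, ← ENNReal.ofReal_natCast, ← ENNReal.ofReal_mul (Nat.cast_nonneg _)]
  apply ENNReal.ofReal_le_ofReal
  have h11 : 1 + 2 * Real.log T ≤ (1 + 2 / γ) * T ^ γ := by
    have h12 := Real.log_le_rpow_div hT0.le hγ0
    have h13 : 1 ≤ T ^ γ := Real.one_le_rpow hT hγ0.le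
    calc 1 + 2 * Real.log T ≤ T ^ γ + 2 * (T ^ γ / γ) := by linarith
      _ = (1 + 2 / γ) * T ^ γ := by ring
  have h14 : 0 ≤ C * M0 * 2 * T ^ (1 - 2 * γ) := by positivity
  calc ((KK ε T).card : ℝ) * (C * M0 * 2 * T ^ (1 - 2 * γ))
      ≤ ((1 + 2 / γ) * T ^ γ) * (C * M0 * 2 * T ^ (1 - 2 * γ)) := by
        gcongr
        exact le_trans (card_KK hT) h11
    _ = C2 * (T ^ γ * T ^ (1 - 2 * γ)) := by rw [hC2]; ring
    _ = C2 * T ^ (1 - γ) := by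
        rw [← Real.rpow_add hT0]
        congr 2
        ring
    _ ≤ max C (max C2 1) * T ^ (1 - min δ γ) := by
        gcongr
        · exact le_trans (le_max_left _ _) (le_max_right _ _)
        · exact min_le_right _ _

end Pool.Agent.K1H88.GT
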