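import Pool.Agent.K1H88.GT.BC
import Pool.Agent.K1H88.GT.Stm3
import Pool.Agent.K1H75.GT.Finq

set_option autoImplicit false

namespace Pool.Agent.K1H88.GT

open Finset MeasureTheory Filter

namespace HD

open scoped MeasureTheory in
/-- covering by few small intervals -/
lemma hausdorff_zero {S : Set ℝ} {s : ℝ} (hs : 0 < s) (R : ℕ → ℕ) (hR : ∀ k, 2 ^ k ≤ R k) (B : ℕ → Finset ℕ)
    (hS : ∀ x ∈ S, ∃ᶠ k in atTop, ∃ i ∈ B k, (i : ℝ) / R k ≤ x ∧ x ≤ ((i : ℝ) + 1) / R k)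
    {C q : ℝ} (hC : 0 ≤ C) (hq0 : 0 ≤ q) (hq1 : q < 1)
    (hB : ∀ k, ((B k).card : ℝ) * (1 / (R k : ℝ)) ^ s ≤ C * q ^ k) :
    Measure.hausdorffMeasure s S = 0 := by
  classical
  have hRpos : ∀ k, (0 : ℝ) < R k := fun k => by
    have h1 : 1 ≤ R k := le_trans Nat.one_le_two_pow (hR k)
    exact_mod_cast h1
  let t : ℕ → ℕ × ℕ → Set ℝ := fun n p =>
    if p.2 ∈ B (n + p.1) then Set.Icc ((p.2 : ℝ) / R (n + p.1)) (((p.2 : ℝ) + 1) / R (n + p.1)) else ∅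
  have hdiam : ∀ n p, Metric.ediam (t n p) ≤ ENNReal.ofReal (1 / (R (n + p.1) : ℝ)) := by
    intro n p
    simp only [t]
    split_ifs
    · rw [Real.ediam_Icc]
      apply ENNReal.ofReal_le_ofReal
      rw [← sub_div]
      apply le_of_eq
      congr 1
      ring
    · simp
  have key := Measure.hausdorffMeasure_le_liminf_tsum s S (l := atTop)
    (fun n : ℕ => ENNReal.ofReal ((1 / 2) ^ n)) ?_ t ?_ ?_
  · refine le_antisymm (le_trans key ?_) bot_le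
    have hsum : ∀ n, ∑' p : ℕ × ℕ, Metric.ediam (t n p) ^ s ≤ ENNReal.ofReal (C * (1 - q)⁻¹ * q ^ n) := by
      intro n
      rw [ENNReal.tsum_prod']
      have h1 : ∀ k, ∑' i, Metric.ediam (t n (k, i)) ^ s ≤ ENNReal.ofReal (C * q ^ n * q ^ k) := by
        intro k
        rw [tsum_eq_sum (s := B (n + k))]
        · calc ∑ i ∈ B (n + k), Metric.ediam (t n (k, i)) ^ s
              ≤ ∑ i ∈ B (n + k), ENNReal.ofReal ((1 / (R (n + k) : ℝ)) ^ s) := by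
                refine sum_le_sum fun i _ => ?_
                rw [← ENNReal.ofReal_rpow_of_nonneg (by positivity) hs.le]
                exact ENNReal.rpow_le_rpow (hdiam n (k, i)) hs.le
            _ = ENNReal.ofReal (((B (n + k)).card : ℝ) * (1 / (R (n + k) : ℝ)) ^ s) := by
                rw [sum_const, nsmul_eq_mul, ENNReal.ofReal_mul (Nat.cast_nonneg _), ENNReal.ofReal_natCast]
            _ ≤ ENNReal.ofReal (C * q ^ n * q ^ k) := by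
                apply ENNReal.ofReal_le_ofReal
                refine le_trans (hB (n + k)) (le_of_eq ?_)
                rw [pow_add]; ring
        · intro i hi
          have : t n (k, i) = ∅ := by
            simp only [t]
            rw [if_neg hi]
          rw [this, Metric.ediam_empty, ENNReal.zero_rpow_of_pos hs]
      refine le_trans (ENNReal.tsum_le_tsum h1) ?_
      rw [← ENNReal.ofReal_tsum_of_nonneg (fun k => by positivity)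
        ((summable_geometric_of_lt_one hq0 hq1).mul_left _), tsum_mul_left, tsum_geometric_of_lt_one hq0 hq1]
      apply ENNReal.ofReal_le_ofReal
      apply le_of_eq
      ring
    have hlim : Tendsto (fun n : ℕ => ENNReal.ofReal (C * (1 - q)⁻¹ * q ^ n)) atTop (nhds 0) := by
      have h2 := ((tendsto_pow_atTop_nhds_zero_of_lt_one hq0 hq1).const_mul (C * (1 - q)⁻¹))
      rw [mul_zero] at h2
      have h3 := ENNReal.tendsto_ofReal h2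
      rwa [ENNReal.ofReal_zero] at h3
    calc liminf (fun n => ∑' p : ℕ × ℕ, Metric.ediam (t n p) ^ s) atTop
        ≤ liminf (fun n : ℕ => ENNReal.ofReal (C * (1 - q)⁻¹ * q ^ n)) atTop :=
          liminf_le_liminf (Eventually.of_forall hsum)
      _ = 0 := hlim.liminf_eq
  · have h2 := tendsto_pow_atTop_nhds_zero_of_lt_one (by norm_num : (0 : ℝ) ≤ 1 / 2) (by norm_num)
    have h3 := ENNReal.tendsto_ofReal h2
    rwa [ENNReal.ofReal_zero] at h3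
  · refine Eventually.of_forall fun n p => le_trans (hdiam n p) ?_
    apply ENNReal.ofReal_le_ofReal
    rw [one_div_pow]
    apply one_div_le_one_div_of_le (by positivity)
    have h4 : 2 ^ n ≤ R (n + p.1) := le_trans (Nat.pow_le_pow_right (by norm_num) (by omega)) (hR _)
    exact_mod_cast h4
  · refine Eventually.of_forall fun n x hx => ?_
    obtain ⟨k, hk, i, hi, h5, h6⟩ := (frequently_atTop.1 (hS x hx)) n
    obtain ⟨k', rfl⟩ := Nat.exists_eq_add_of_le hk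
    rw [Set.mem_iUnion]
    refine ⟨(k', i), ?_⟩
    simp only [t]
    rw [if_pos hi]
    exact ⟨h5, h6⟩

lemma solP_le {ε : ℝ} (he : 0 < ε) (he1 : ε ≤ 1 / 4) {φ : ℕ → ℤ} {C0 : ℝ} (hC0 : 0 ≤ C0)
    (hC : ∀ A B j : ℕ, 1 ≤ j → j ≤ A → A ≤ B → ((solP φ A B j).card : ℝ) ≤ C0 * (B : ℝ) ^ (1 + ε / 2) * j)
    {N J : ℕ} (hN : 1 ≤ N) (hJ1 : (J : ℝ) ≤ (2 * (N : ℝ)) ^ (1 - ε))
    (U1 U2 j : ℕ) (hU12 : U1 ≤ U2) (hU : U2 ≤ 6 * N) (hj : 1 ≤ j) (hjJ : j ≤ J) :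
    ((solP φ (U1 + j) (U2 + j) j).card : ℝ) ≤ (128 * C0) * (N : ℝ) ^ (2 - ε / 2) := by
  have hN1 : (1 : ℝ) ≤ N := by exact_mod_cast hN
  have hjr : (1 : ℝ) ≤ j := by exact_mod_cast hj
  have hjJr : (j : ℝ) ≤ J := by exact_mod_cast hjJ
  have h1 := hC (U1 + j) (U2 + j) j hj (by omega) (by omega)
  have hJN : (J : ℝ) ≤ 2 * N := by
    refine le_trans hJ1 ?_
    calc (2 * (N : ℝ)) ^ (1 - ε) ≤ (2 * (N : ℝ)) ^ (1 : ℝ) :=
          Real.rpow_le_rpow_of_exponent_le (by linarith) (by linarith)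
      _ = 2 * N := Real.rpow_one _
  have hB : ((U2 + j : ℕ) : ℝ) ≤ 8 * N := by
    have : (U2 : ℝ) ≤ 6 * N := by exact_mod_cast hU
    push_cast
    linarith
  have hB0 : (0 : ℝ) ≤ ((U2 + j : ℕ) : ℝ) := Nat.cast_nonneg _
  have h3 : ((U2 + j : ℕ) : ℝ) ^ (1 + ε / 2) ≤ 64 * (N : ℝ) ^ (1 + ε / 2) := by
    calc ((U2 + j : ℕ) : ℝ) ^ (1 + ε / 2) ≤ (8 * (N : ℝ)) ^ (1 + ε / 2) :=
          Real.rpow_le_rpow hB0 hB (by linarith)
      _ = 8 ^ (1 + ε / 2) * (N : ℝ) ^ (1 + ε / 2) := Real.mul_rpow (by norm_num) (by linarith)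
      _ ≤ 8 ^ (2 : ℝ) * (N : ℝ) ^ (1 + ε / 2) := by
          gcongr
          · norm_num
          · linarith
      _ = 64 * (N : ℝ) ^ (1 + ε / 2) := by norm_num
  have hP : 0 ≤ (N : ℝ) ^ (1 + ε / 2) := Real.rpow_nonneg (by linarith) _
  have e1 : (N : ℝ) ^ (1 + ε / 2) * j ≤ 2 * (N : ℝ) ^ (2 - ε / 2) := by
    have : (j : ℝ) ≤ 2 * (N : ℝ) ^ (1 - ε) := by
      refine le_trans hjJr (le_trans hJ1 ?_)
      rw [Real.mul_rpow (by norm_num) (by linarith)]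
      gcongr
      calc (2 : ℝ) ^ (1 - ε) ≤ 2 ^ (1 : ℝ) := Real.rpow_le_rpow_of_exponent_le (by norm_num) (by linarith)
        _ = 2 := Real.rpow_one _
    calc (N : ℝ) ^ (1 + ε / 2) * j ≤ (N : ℝ) ^ (1 + ε / 2) * (2 * (N : ℝ) ^ (1 - ε)) := by gcongr
      _ = 2 * ((N : ℝ) ^ (1 + ε / 2) * (N : ℝ) ^ (1 - ε)) := by ring
      _ = 2 * (N : ℝ) ^ (2 - ε / 2) := by
          rw [← Real.rpow_add (by linarith)]
          congr 2
          ring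
  calc ((solP φ (U1 + j) (U2 + j) j).card : ℝ) ≤ C0 * ((U2 + j : ℕ) : ℝ) ^ (1 + ε / 2) * j := h1
    _ ≤ C0 * (64 * (N : ℝ) ^ (1 + ε / 2)) * j := by gcongr
    _ = 64 * C0 * ((N : ℝ) ^ (1 + ε / 2) * j) := by ring
    _ ≤ 64 * C0 * (2 * (N : ℝ) ^ (2 - ε / 2)) := by gcongr
    _ = (128 * C0) * (N : ℝ) ^ (2 - ε / 2) := by ring

open BC in
lemma good_of {φ : ℕ → ℤ} {ε ε' δ C α : ℝ} (hδ : 0 < δ) (he : 0 < ε) (hee : ε ≤ ε') (he1 : ε ≤ 1 / 4)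
    (h : ∀ᶠ k in atTop, α ∉ EP φ ε δ C k) : Good φ ε' (δ / 2) α := by
  obtain ⟨K, hK⟩ := eventually_atTop.1 h
  obtain ⟨X1, hX1⟩ := eventually_atTop.1
    ((tendsto_rpow_atTop (show (0 : ℝ) < δ / 2 by positivity)).eventually_ge_atTop C)
  refine ⟨max (2 ^ (K + 1)) X1, le_max_of_le_left (one_le_pow₀ (by norm_num)), ?_⟩
  intro X H hX hH hHX
  have hXK : (2 : ℝ) ^ (K + 1) ≤ X := (le_max_left _ _).trans hX
  have hXX := hX1 X ((le_max_right _ _).trans hX)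
  have hX1' : 1 ≤ X := (one_le_pow₀ (by norm_num)).trans hXK
  have hX0 : 0 < X := by linarith
  obtain ⟨k, hk1, hk2'⟩ := exists_nat_pow_near hX1' (by norm_num : (1 : ℝ) < 2)
  have hk2 : X ≤ 2 * 2 ^ k := by rw [pow_succ] at hk2'; linarith
  have hKk : K ≤ k := by
    by_contra h
    have h1 : k + 1 ≤ K := by omega
    have h2 : (2 : ℝ) ^ (k + 1) ≤ 2 ^ K := pow_le_pow_right₀ (by norm_num) h1
    have h3 : (2 : ℝ) ^ K ≤ 2 ^ (K + 1) := pow_le_pow_right₀ (by norm_num) (by omega)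
    linarith
  have hnb := hK k hKk
  have hH' : H ≤ X ^ (1 - ε) := hHX.trans (Real.rpow_le_rpow_of_exponent_le hX1' (by linarith))
  have h5 : |VV (fa φ α) X H - 6 / Real.pi ^ 2 * H| ≤ C * H * X ^ (-δ) := by
    by_contra hlt
    apply hnb
    refine ⟨X, H, ?_, ?_, hH, ?_, ?_, not_le.1 hlt⟩
    · push_cast; exact hk1
    · push_cast; exact hk2
    · refine hH'.trans ?_
      calc X ^ (1 - ε) ≤ X ^ (1 : ℝ) := Real.rpow_le_rpow_of_exponent_le hX1' (by linarith)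
        _ = X := Real.rpow_one X
    · unfold JP
      apply Nat.floor_mono
      push_cast
      exact hH'.trans (Real.rpow_le_rpow hX0.le hk2 (by linarith))
  calc |VV (fa φ α) X H - 6 / Real.pi ^ 2 * H| ≤ C * H * X ^ (-δ) := h5
    _ ≤ X ^ (δ / 2) * H * X ^ (-δ) := by gcongr
    _ = H * (X ^ (δ / 2) * X ^ (-δ)) := by ring
    _ = H * X ^ (-(δ / 2)) := by
        rw [← Real.rpow_add hX0]
        congr 2
        ring

open BC in
/-- all real `α` from the unit interval -/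
lemma dim_all {φ : ℕ → ℤ} {ε δ : ℝ} :
    dimH {α : ℝ | ¬ Good φ ε δ α} ≤ dimH {α : ℝ | 0 ≤ α ∧ α < 1 ∧ ¬ Good φ ε δ α} := by
  have h1 : {α : ℝ | ¬ Good φ ε δ α} ⊆
      ⋃ n : ℤ, (IsometryEquiv.addRight (n : ℝ)) '' {α : ℝ | 0 ≤ α ∧ α < 1 ∧ ¬ Good φ ε δ α} := by
    intro α hα
    rw [Set.mem_iUnion]
    refine ⟨⌊α⌋, Int.fract α, ⟨Int.fract_nonneg α, Int.fract_lt_one α, ?_⟩, ?_⟩
    · intro h
      apply hα
      have h2 : Good φ ε δ (α + ((-⌊α⌋ : ℤ) : ℝ)) := by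
        have : α + ((-⌊α⌋ : ℤ) : ℝ) = Int.fract α := by
          push_cast
          rw [Int.fract]; ring
        rw [this]; exact h
      exact good_period h2
    · simp
  refine le_trans (dimH_mono h1) ?_
  rw [dimH_iUnion]
  refine iSup_le fun n => ?_
  rw [IsometryEquiv.dimH_image]

open BC in
open Classical in
/-- the indices of the intervals which meet the exceptional set -/
noncomputable def BB (φ : ℕ → ℤ) (ε δ C : ℝ) (d k : ℕ) : Finset ℕ :=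
  (range ((2 ^ k) ^ d)).filter (fun i => ∃ x : ℝ, (i : ℝ) / ((2 ^ k) ^ d : ℕ) ≤ x ∧
    x ≤ ((i : ℝ) + 1) / ((2 ^ k) ^ d : ℕ) ∧ x ∈ EP φ ε δ C k)

open BC in
lemma BB_card {ε δ C : ℝ} (hU : ∀ (Ω : Type) [MeasurableSpace Ω] (ν : Measure Ω) [IsFiniteMeasure ν] (a : Ω → ℕ → ℂ),
    (∀ n, Measurable (fun ω => a ω n)) → (∀ ω n, ‖a ω n‖ ^ 2 = if Squarefree n then 1 else 0) →
    ∀ (N J : ℕ) (M : ℝ), 1 ≤ N → J ≤ 2 * N → 0 ≤ M →
    (∀ U1 U2 j : ℕ, U1 ≤ U2 → U2 ≤ 6 * N → 1 ≤ j → j ≤ J →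
      ∫ ω, ‖ZZ (a ω) U1 U2 j‖ ^ 2 ∂ν ≤ M * (N : ℝ) ^ (2 - ε / 2)) →
    ν {ω | ∃ X H : ℝ, (N : ℝ) ≤ X ∧ X ≤ 2 * N ∧ 1 ≤ H ∧ H ≤ X ∧ ⌊H⌋₊ ≤ J ∧
        C * H * X ^ (-δ) < |VV (a ω) X H - 6 / Real.pi ^ 2 * H|} ≤
      ENNReal.ofReal (C * M * (N : ℝ) ^ (-(ε / 2 / 2)))) (hL : S_LSP)
    (he : 0 < ε) (he1 : ε ≤ 1 / 4) {φ : ℕ → ℤ} {C0 : ℝ} (hC0 : 0 ≤ C0)
    (hC : ∀ A B j : ℕ, 1 ≤ j → j ≤ A → A ≤ B → ((solP φ A B j).card : ℝ) ≤ C0 * (B : ℝ) ^ (1 + ε / 2) * j)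
    (hCp : 0 ≤ C) {d G : ℕ} (hG : ∀ n : ℕ, 1 ≤ n → |φ n| ≤ G * (n : ℤ) ^ d) (k : ℕ) :
    ((BB φ ε δ C d k).card : ℝ) ≤
      C * (128 * C0 * (1 + 14 * (2 * G * 8 ^ d))) * ((2 : ℝ) ^ k) ^ d * (2 ^ k) ^ (-(ε / 2 / 2)) := by
  classical
  obtain ⟨R, hR⟩ : ∃ R : ℕ, R = (2 ^ k) ^ d := ⟨_, rfl⟩
  have hR1 : 1 ≤ R := by rw [hR]; exact Nat.one_le_pow _ _ (by positivity)
  have hR0 : (0 : ℝ) < R := by exact_mod_cast hR1
  -- the points
  let β : ℕ → ℝ := fun i => if h : ∃ x : ℝ, (i : ℝ) / (R : ℕ) ≤ x ∧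
    x ≤ ((i : ℝ) + 1) / (R : ℕ) ∧ x ∈ EP φ ε δ C k then h.choose else (i : ℝ) / R
  have hβ1 : ∀ i : ℕ, (i : ℝ) / R ≤ β i ∧ β i ≤ ((i : ℝ) + 1) / R := by
    intro i
    simp only [β]
    split_ifs with h
    · exact ⟨h.choose_spec.1, h.choose_spec.2.1⟩
    · refine ⟨le_refl _, ?_⟩
      gcongr
      linarith
  have hβ2 : ∀ i ∈ BB φ ε δ C d k, β i ∈ EP φ ε δ C k := by
    intro i hi
    unfold BB at hi
    rw [mem_filter, ← hR] at hi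
    simp only [β]
    rw [dif_pos hi.2]
    exact hi.2.choose_spec.2.2
  have hN1 : 1 ≤ 2 ^ k := Nat.one_le_two_pow
  obtain ⟨K, hK⟩ : ∃ K : ℕ, K = 2 * G * 8 ^ d * R := ⟨_, rfl⟩
  have hb := hU ℕ (Pool.Agent.K1H75.GT.nu (range R)) (fun i => fa φ (β i))
    (fun n => measurable_from_nat) (fun i n => fa_norm φ (β i) n) (2 ^ k) (JP ε k)
    (128 * C0 * ((1 + 14 * (2 * G * 8 ^ d)) * R)) hN1 ?_ (by positivity) ?_
  · rw [Pool.Agent.K1H75.GT.nu_apply] at hb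
    have h1 : (BB φ ε δ C d k).card ≤ ((range R).filter (fun i => i ∈ {i : ℕ | ∃ X H : ℝ, ((2 ^ k : ℕ) : ℝ) ≤ X ∧
        X ≤ 2 * ((2 ^ k : ℕ) : ℝ) ∧ 1 ≤ H ∧ H ≤ X ∧ ⌊H⌋₊ ≤ JP ε k ∧
        C * H * X ^ (-δ) < |VV (fa φ (β i)) X H - 6 / Real.pi ^ 2 * H|})).card := by
      apply card_le_card
      intro i hi
      rw [mem_filter]
      refine ⟨?_, hβ2 i hi⟩
      unfold BB at hi
      rw [mem_filter, ← hR] at hi
      exact hi.1
    have h2 : ((BB φ ε δ C d k).card : ENNReal) ≤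
        ENNReal.ofReal (C * (128 * C0 * ((1 + 14 * (2 * G * 8 ^ d)) * R)) * ((2 ^ k : ℕ) : ℝ) ^ (-(ε / 2 / 2))) := by
      refine le_trans ?_ hb
      exact_mod_cast h1
    rw [← ENNReal.ofReal_natCast, ENNReal.ofReal_le_ofReal_iff (by positivity)] at h2
    refine le_trans h2 (le_of_eq ?_)
    rw [hR]
    push_cast
    ring
  · have h9 : (JP ε k : ℝ) ≤ 2 * ((2 ^ k : ℕ) : ℝ) := by
      refine le_trans (Nat.floor_le (by positivity)) ?_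
      have h10 : (1 : ℝ) ≤ ((2 ^ k : ℕ) : ℝ) := by exact_mod_cast hN1
      calc (2 * ((2 ^ k : ℕ) : ℝ)) ^ (1 - ε) ≤ (2 * ((2 ^ k : ℕ) : ℝ)) ^ (1 : ℝ) :=
            Real.rpow_le_rpow_of_exponent_le (by linarith) (by linarith)
        _ = 2 * ((2 ^ k : ℕ) : ℝ) := Real.rpow_one _
    exact_mod_cast h9
  · intro U1 U2 j hU12 hU2 hj hjJ
    rw [Pool.Agent.K1H75.GT.nu_int]
    have hjN : j ≤ 2 * 2 ^ k := by
      have h9 : (JP ε k : ℝ) ≤ 2 * ((2 ^ k : ℕ) : ℝ) := by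
        refine le_trans (Nat.floor_le (by positivity)) ?_
        have h10 : (1 : ℝ) ≤ ((2 ^ k : ℕ) : ℝ) := by exact_mod_cast hN1
        calc (2 * ((2 ^ k : ℕ) : ℝ)) ^ (1 - ε) ≤ (2 * ((2 ^ k : ℕ) : ℝ)) ^ (1 : ℝ) :=
              Real.rpow_le_rpow_of_exponent_le (by linarith) (by linarith)
          _ = 2 * ((2 ^ k : ℕ) : ℝ) := Real.rpow_one _
      have h10 : JP ε k ≤ 2 * 2 ^ k := by exact_mod_cast h9
      omega
    refine le_trans (hL φ U1 U2 j R K β hR1 ?_ (fun i _ => hβ1 i)) ?_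
    · intro m h hm1 hm2 hh1 hh2
      have g1 : ∀ n : ℕ, 1 ≤ n → n ≤ 8 * 2 ^ k → |φ n| ≤ (G * 8 ^ d * R : ℕ) := by
        intro n hn1 hn2
        refine le_trans (hG n hn1) ?_
        have g2 : n ^ d ≤ (8 * 2 ^ k) ^ d := Nat.pow_le_pow_left hn2 d
        have g3 : G * n ^ d ≤ G * 8 ^ d * R := by
          calc G * n ^ d ≤ G * (8 * 2 ^ k) ^ d := Nat.mul_le_mul_left _ g2
            _ = G * 8 ^ d * R := by rw [hR, mul_pow]; ring
        exact_mod_cast g3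
      have g4 := g1 m (by omega) (by omega)
      have g5 := g1 (m - h) (by omega) (by omega)
      calc |φ m - φ (m - h)| ≤ |φ m| + |φ (m - h)| := abs_sub _ _
        _ ≤ (G * 8 ^ d * R : ℕ) + (G * 8 ^ d * R : ℕ) := add_le_add g4 g5
        _ = (K : ℤ) := by rw [hK]; push_cast; ring
    · have h11 := solP_le he he1 hC0 hC hN1 (Nat.floor_le (by positivity) : (JP ε k : ℝ) ≤ _) U1 U2 j
        hU12 hU2 hj hjJ
      calc ((R : ℝ) + 14 * K) * ((solP φ (U1 + j) (U2 + j) j).card : ℝ)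
          ≤ ((R : ℝ) + 14 * K) * ((128 * C0) * ((2 ^ k : ℕ) : ℝ) ^ (2 - ε / 2)) := by gcongr
        _ = 128 * C0 * ((1 + 14 * (2 * G * 8 ^ d)) * R) * ((2 ^ k : ℕ) : ℝ) ^ (2 - ε / 2) := by
            rw [hK]; push_cast; ring

end HD

open HD BC in
/-- **The exceptional `α` have Hausdorff dimension less than one.** -/
theorem t_HD (hU : S_UNI) (hL : S_LSP) (hG : S_GRO) (hC : S_CNTP) : ∀ ε : ℝ, 0 < ε → ∃ δ : ℝ, 0 < δ ∧
    ∀ P : Polynomial ℤ, 2 ≤ P.natDegree →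
      dimH {α : ℝ | ¬ Good (fun n => P.eval (n : ℤ)) ε δ α} ≤
        ENNReal.ofReal (1 - min ε (1 / 4) / (8 * P.natDegree)) := by
  classical
  intro ε' he'
  obtain ⟨ε, hε⟩ : ∃ ε, ε = min ε' (1 / 4) := ⟨_, rfl⟩
  have he : 0 < ε := by rw [hε]; exact lt_min he' (by norm_num)
  have he1 : ε ≤ 1 / 4 := by rw [hε]; exact min_le_right _ _
  have hee : ε ≤ ε' := by rw [hε]; exact min_le_left _ _
  obtain ⟨δ, hδ, C, hC1, hU⟩ := hU (ε / 2) (by linarith) (by linarith)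
  refine ⟨δ / 2, by linarith, ?_⟩
  intro P hP
  obtain ⟨C0, hC0, hCP⟩ := hC P hP (ε / 2) (by linarith)
  obtain ⟨G, hG⟩ := hG P
  obtain ⟨d, hd⟩ : ∃ d, d = P.natDegree := ⟨_, rfl⟩
  rw [← hd] at hP hG ⊢
  rw [← hε]
  obtain ⟨φ, hφ⟩ : ∃ φ : ℕ → ℤ, φ = fun n : ℕ => P.eval (n : ℤ) := ⟨_, rfl⟩
  rw [← hφ] at hCP ⊢
  have hGφ : ∀ n : ℕ, 1 ≤ n → |φ n| ≤ G * (n : ℤ) ^ d := by rw [hφ]; exact hG
  refine le_trans dim_all ?_
  have hd2 : (2 : ℝ) ≤ d := by exact_mod_cast hP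
  obtain ⟨s, hs⟩ : ∃ s : ℝ, s = 1 - ε / (8 * d) := ⟨_, rfl⟩
  have hx : ε / (8 * d) ≤ 1 / 64 := by
    rw [div_le_iff₀ (by positivity)]
    linarith
  have hs0 : 0 < s := by rw [hs]; linarith
  rw [← hs]
  have hq1 : (2 : ℝ) ^ (-(ε / 8)) < 1 := Real.rpow_lt_one_of_one_lt_of_neg (by norm_num) (by linarith)
  obtain ⟨D, hD⟩ : ∃ D : ℝ, D = C * (128 * C0 * (1 + 14 * (2 * G * 8 ^ d))) := ⟨_, rfl⟩
  have hD0 : 0 ≤ D := by rw [hD]; positivity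
  have key := hausdorff_zero (S := {α : ℝ | 0 ≤ α ∧ α < 1 ∧ ¬ Good φ ε' (δ / 2) α}) hs0
    (fun k => (2 ^ k) ^ d) (fun k => ?_) (BB φ ε δ C d) ?_ hD0 (by positivity) hq1 ?_
  · have h1 : dimH {α : ℝ | 0 ≤ α ∧ α < 1 ∧ ¬ Good φ ε' (δ / 2) α} ≤ ((Real.toNNReal s : NNReal) : ENNReal) := by
      apply dimH_le_of_hausdorffMeasure_ne_top
      rw [Real.coe_toNNReal s hs0.le, key]
      exact ENNReal.zero_ne_top
    exact h1
  · calc 2 ^ k = (2 ^ k) ^ 1 := (pow_one _).symm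
      _ ≤ (2 ^ k) ^ d := Nat.pow_le_pow_right (by positivity) (by omega)
  · rintro x ⟨hx0, hx1, hxG⟩
    have h1 : ∃ᶠ k in atTop, x ∈ EP φ ε δ C k := by
      by_contra h
      apply hxG
      rw [not_frequently] at h
      exact good_of hδ he hee he1 h
    refine h1.mono fun k hk => ?_
    have hRpos : (0 : ℝ) < ((2 ^ k) ^ d : ℕ) := by positivity
    have hfl := Nat.floor_le (mul_nonneg hx0 hRpos.le)
    have hfl2 := Nat.lt_floor_add_one (x * (((2 ^ k) ^ d : ℕ) : ℝ))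
    have b1 : (⌊x * (((2 ^ k) ^ d : ℕ) : ℝ)⌋₊ : ℝ) / ((2 ^ k) ^ d : ℕ) ≤ x := by
      rw [div_le_iff₀ hRpos]; exact hfl
    have b2 : x ≤ ((⌊x * (((2 ^ k) ^ d : ℕ) : ℝ)⌋₊ : ℝ) + 1) / ((2 ^ k) ^ d : ℕ) := by
      rw [le_div_iff₀ hRpos]; exact hfl2.le
    refine ⟨⌊x * (((2 ^ k) ^ d : ℕ) : ℝ)⌋₊, ?_, b1, b2⟩
    unfold BB
    rw [mem_filter, mem_range]
    refine ⟨?_, x, b1, b2, hk⟩
    have b3 : (⌊x * (((2 ^ k) ^ d : ℕ) : ℝ)⌋₊ : ℝ) < ((2 ^ k) ^ d : ℕ) := by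
      refine lt_of_le_of_lt hfl ?_
      calc x * (((2 ^ k) ^ d : ℕ) : ℝ) < 1 * (((2 ^ k) ^ d : ℕ) : ℝ) := by gcongr
        _ = _ := one_mul _
    exact_mod_cast b3
  · intro k
    have h1 := BB_card hU hL he he1 hC0 hCP (by linarith) hGφ k
    have h2pos : (0 : ℝ) < 2 ^ k := by positivity
    have e1 : ((2 : ℝ) ^ k) ^ d = (2 : ℝ) ^ ((k : ℝ) * d) := by
      rw [← Real.rpow_natCast, ← Real.rpow_natCast, ← Real.rpow_mul (by norm_num)]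
    calc ((BB φ ε δ C d k).card : ℝ) * (1 / (((2 ^ k) ^ d : ℕ) : ℝ)) ^ s
        ≤ (D * ((2 : ℝ) ^ k) ^ d * (2 ^ k) ^ (-(ε / 2 / 2))) * (1 / (((2 ^ k) ^ d : ℕ) : ℝ)) ^ s := by
          rw [hD]
          gcongr
      _ = D * (2 ^ (-(ε / 8))) ^ k := by
          push_cast
          rw [e1, one_div, Real.inv_rpow (by positivity), ← Real.rpow_neg (by positivity),
            ← Real.rpow_natCast 2 k, ← Real.rpow_mul (by norm_num), ← Real.rpow_mul (by norm_num), mul_assoc,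
            ← Real.rpow_add (by norm_num), mul_assoc, ← Real.rpow_add (by norm_num),
            ← Real.rpow_natCast (2 ^ (-(ε / 8))) k, ← Real.rpow_mul (by norm_num)]
          congr 2
          rw [hs]
          field_simp
          ring

end Pool.Agent.K1H88.GT
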