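import Pool.Agent.K1H88.GT.Stm3
import Pool.Agent.K1H97.GT.Momp

set_option autoImplicit false

namespace Pool.Agent.K1H88.GT

open Finset MeasureTheory Pool.Agent.K1H3.GT Pool.Agent.K1H97.GT

namespace LSP

/-- the mean square with general coefficients -/
lemma mom_gen (φ : ℕ → ℤ) (U1 U2 j : ℕ) (c : ℕ × ℕ → ℝ) {A : ℝ} (hA : 0 ≤ A)
    (hc : ∀ p ∈ Ioc (U1 + j) (U2 + j) ×ˢ Icc 1 j, |c p| ≤ A) :
    ∫ t in (0 : ℝ)..1, ‖ES (Ioc (U1 + j) (U2 + j) ×ˢ Icc 1 j) c (frP φ) t‖ ^ 2 ≤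
      A ^ 2 * ((solP φ (U1 + j) (U2 + j) j).card : ℝ) := by
  classical
  set P : Finset (ℕ × ℕ) := Ioc (U1 + j) (U2 + j) ×ˢ Icc 1 j with hP
  have hquad : quad (U1 + j) (U2 + j) j = P ×ˢ P := rfl
  simp only [normsq]
  rw [intervalIntegral.integral_finsetSum]
  · have hsol : A ^ 2 * ((solP φ (U1 + j) (U2 + j) j).card : ℝ) = ∑ q ∈ P ×ˢ P,
        if φ q.1.1 - φ (q.1.1 - q.1.2) = φ q.2.1 - φ (q.2.1 - q.2.2) then A ^ 2 else 0 := by
      unfold solP
      rw [hquad, Finset.card_filter]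
      push_cast
      rw [mul_sum]
      refine sum_congr rfl fun q _ => ?_
      split_ifs <;> simp
    rw [hsol]
    apply Finset.sum_le_sum
    intro q hq
    rw [mem_product] at hq
    rw [intervalIntegral.integral_const_mul]
    have e : ∀ t : ℝ, t * (frP φ q.1 - frP φ q.2) = t * (2 * Real.pi *
        (((φ (q.1.1 - q.1.2) - φ q.1.1) - (φ (q.2.1 - q.2.2) - φ q.2.1) : ℤ) : ℝ)) := by
      intro t
      unfold frP
      push_cast
      ring
    simp only [e]
    rw [int_cos_int]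
    have h4 : c q.1 * c q.2 ≤ A ^ 2 := by
      refine (le_abs_self _).trans ?_
      rw [abs_mul, sq]
      exact mul_le_mul (hc _ hq.1) (hc _ hq.2) (abs_nonneg _) hA
    by_cases h : φ q.1.1 - φ (q.1.1 - q.1.2) = φ q.2.1 - φ (q.2.1 - q.2.2)
    · rw [if_pos h, if_pos (by omega), mul_one]
      exact h4
    · rw [if_neg h, if_neg (by omega), mul_zero]
  · intro q _
    apply Continuous.intervalIntegrable
    fun_prop

lemma ES_cont {ι : Type} (P : Finset ι) (c l : ι → ℝ) : Continuous (ES P c l) := by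
  unfold ES
  fun_prop

lemma ES_deriv {ι : Type} (P : Finset ι) (c l : ι → ℝ) (t : ℝ) :
    HasDerivAt (ES P c l) (Complex.I * ES P (fun p => c p * l p) l t) t := by
  unfold ES
  rw [mul_sum]
  refine HasDerivAt.fun_sum fun p _ => ?_
  have h1 : HasDerivAt (fun t : ℝ => ((t * l p : ℝ) : ℂ) * Complex.I) ((l p : ℂ) * Complex.I) t := by
    have h2 : HasDerivAt (fun t : ℝ => (t * l p : ℝ)) (l p) t := by
      simpa using (hasDerivAt_id t).mul_const (l p)
    exact (h2.ofReal_comp).mul_const Complex.I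
  have h3 := (h1.cexp).const_mul (c p : ℂ)
  refine h3.congr_deriv ?_
  push_cast
  ring

/-- Sobolev inequality on an interval -/
lemma sobolev {F F' : ℝ → ℂ} (hF : Continuous F) (hF' : Continuous F')
    (hd : ∀ t, HasDerivAt F (Complex.I * F' t) t) {a b x R : ℝ} (hab : a ≤ b) (hR : 0 < R) (hlen : b - a = 1 / R)
    (hx1 : a ≤ x) (hx2 : x ≤ b) :
    ‖F x‖ ^ 2 ≤ R * (∫ y in a..b, ‖F y‖ ^ 2) + ∫ y in a..b, 2 * (‖F y‖ * ‖F' y‖) := by
  have hcg : Continuous fun y => 2 * (‖F y‖ * ‖F' y‖) := by fun_prop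
  have hgd : ∀ t, HasDerivAt (fun y => ‖F y‖ ^ 2) (2 * inner ℝ (F t) (Complex.I * F' t)) t := by
    intro t
    exact (hd t).norm_sq
  have hgc : Continuous fun t => 2 * inner ℝ (F t) (Complex.I * F' t) := by
    fun_prop
  have h1 : ∀ y ∈ Set.Icc a b, ‖F x‖ ^ 2 ≤ ‖F y‖ ^ 2 + ∫ y in a..b, 2 * (‖F y‖ * ‖F' y‖) := by
    intro y hy
    have h2 : ‖F x‖ ^ 2 - ‖F y‖ ^ 2 = ∫ t in y..x, 2 * inner ℝ (F t) (Complex.I * F' t) := by
      rw [intervalIntegral.integral_eq_sub_of_hasDerivAt (fun t _ => hgd t) (hgc.intervalIntegrable _ _)]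
    have hb : ∀ t, |2 * inner ℝ (F t) (Complex.I * F' t)| ≤ 2 * (‖F t‖ * ‖F' t‖) := by
      intro t
      rw [abs_mul, abs_two]
      have := abs_real_inner_le_norm (F t) (Complex.I * F' t)
      rw [norm_mul, Complex.norm_I, one_mul] at this
      linarith
    have h3 : |∫ t in y..x, 2 * inner ℝ (F t) (Complex.I * F' t)| ≤ |∫ t in y..x, 2 * (‖F t‖ * ‖F' t‖)| := by
      have := intervalIntegral.norm_integral_le_abs_of_norm_le (a := y) (b := x)
        (f := fun t => 2 * inner ℝ (F t) (Complex.I * F' t)) (g := fun t => 2 * (‖F t‖ * ‖F' t‖))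
        (μ := volume) (Filter.Eventually.of_forall fun t => by
          rw [Real.norm_eq_abs]; exact hb t) (hcg.intervalIntegrable _ _)
      simpa [Real.norm_eq_abs] using this
    have h4 : |∫ t in y..x, 2 * (‖F t‖ * ‖F' t‖)| ≤ ∫ y in a..b, 2 * (‖F y‖ * ‖F' y‖) := by
      have hnn : ∀ t, 0 ≤ 2 * (‖F t‖ * ‖F' t‖) := fun t => by positivity
      rcases le_total y x with h | h
      · rw [abs_of_nonneg (intervalIntegral.integral_nonneg h fun t _ => hnn t)]
        exact intervalIntegral.integral_mono_interval hy.1 h hx2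
          (Filter.Eventually.of_forall hnn) (hcg.intervalIntegrable _ _)
      · rw [intervalIntegral.integral_symm, abs_neg,
          abs_of_nonneg (intervalIntegral.integral_nonneg h fun t _ => hnn t)]
        exact intervalIntegral.integral_mono_interval hx1 h hy.2
          (Filter.Eventually.of_forall hnn) (hcg.intervalIntegrable _ _)
    have h5 := (le_abs_self _).trans (h3.trans h4)
    rw [← h2] at h5
    linarith
  have h6 : ∫ y in a..b, ‖F x‖ ^ 2 ≤ ∫ y in a..b, (‖F y‖ ^ 2 + ∫ y in a..b, 2 * (‖F y‖ * ‖F' y‖)) := by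
    refine intervalIntegral.integral_mono_on hab (by simp) ?_ h1
    apply Continuous.intervalIntegrable
    fun_prop
  rw [intervalIntegral.integral_const, intervalIntegral.integral_add (by
      apply Continuous.intervalIntegrable; fun_prop) (by simp), intervalIntegral.integral_const, hlen,
    smul_eq_mul, smul_eq_mul] at h6
  have h7 : R * (1 / R * ‖F x‖ ^ 2) = ‖F x‖ ^ 2 := by field_simp
  have h8 : R * (1 / R * ∫ y in a..b, 2 * (‖F y‖ * ‖F' y‖)) = ∫ y in a..b, 2 * (‖F y‖ * ‖F' y‖) := by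
    field_simp
  have h9 := mul_le_mul_of_nonneg_left h6 hR.le
  rw [mul_add, h7, h8] at h9
  exact h9

end LSP

open LSP in
theorem t_LSP : S_LSP := by
  intro φ U1 U2 j R K β hR hK hβ
  classical
  have hR0 : (0 : ℝ) < R := by exact_mod_cast hR
  set P : Finset (ℕ × ℕ) := Ioc (U1 + j) (U2 + j) ×ˢ Icc 1 j with hP
  obtain ⟨F, hFdef⟩ : ∃ F : ℝ → ℂ, F = ES P cf (frP φ) := ⟨_, rfl⟩
  obtain ⟨F', hF'def⟩ : ∃ F' : ℝ → ℂ, F' = ES P (fun p => cf p * frP φ p) (frP φ) := ⟨_, rfl⟩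
  have hFc : Continuous F := by rw [hFdef]; exact ES_cont _ _ _
  have hF'c : Continuous F' := by rw [hF'def]; exact ES_cont _ _ _
  have hd : ∀ t, HasDerivAt F (Complex.I * F' t) t := by
    intro t
    rw [hFdef, hF'def]
    exact ES_deriv P cf (frP φ) t
  have hZ : ∀ t, ZZ (fa φ t) U1 U2 j = F t := by
    intro t
    rw [ZZ_eqP, hFdef]
  obtain ⟨S, hS⟩ : ∃ S : ℝ, S = ((solP φ (U1 + j) (U2 + j) j).card : ℝ) := ⟨_, rfl⟩
  have hS0 : 0 ≤ S := by rw [hS]; positivity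
  have hcf : ∀ p : ℕ × ℕ, |cf p| ≤ 1 := by
    intro p
    unfold cf
    rw [abs_mul]
    exact mul_le_one₀ (mu_le _) (abs_nonneg _) (mu_le _)
  have hfr : ∀ p ∈ P, |frP φ p| ≤ 2 * Real.pi * K := by
    intro p hp
    rw [hP, mem_product, mem_Ioc, mem_Icc] at hp
    have h1 := hK p.1 p.2 hp.1.1 hp.1.2 hp.2.1 hp.2.2
    have h2 : |(φ (p.1 - p.2) : ℝ) - (φ p.1 : ℝ)| ≤ K := by
      rw [abs_sub_comm]
      exact_mod_cast h1
    unfold frP
    rw [abs_mul, abs_of_pos (by positivity : (0 : ℝ) < 2 * Real.pi)]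
    gcongr
  have m1 : ∫ t in (0 : ℝ)..1, ‖F t‖ ^ 2 ≤ S := by
    have := mom_gen φ U1 U2 j cf (A := 1) (by norm_num) (fun p _ => hcf p)
    rw [one_pow, one_mul] at this
    rw [hFdef, hS]
    exact this
  have m2 : ∫ t in (0 : ℝ)..1, ‖F' t‖ ^ 2 ≤ (2 * Real.pi * K) ^ 2 * S := by
    have := mom_gen φ U1 U2 j (fun p => cf p * frP φ p) (A := 2 * Real.pi * K) (by positivity) (fun p hp => by
      rw [abs_mul]
      calc |cf p| * |frP φ p| ≤ 1 * (2 * Real.pi * K) := by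
            gcongr
            · exact hcf p
            · exact hfr p hp
        _ = _ := one_mul _)
    rw [hF'def, hS]
    exact this
  -- the mixed integral
  have m3 : ∫ t in (0 : ℝ)..1, 2 * (‖F t‖ * ‖F' t‖) ≤ 14 * K * S := by
    rcases Nat.eq_zero_or_pos K with h0 | h0
    · have hz : ∀ t, F' t = 0 := by
        intro t
        rw [hF'def]
        unfold ES
        refine sum_eq_zero fun p hp => ?_
        have h1 := hfr p hp
        rw [h0, Nat.cast_zero, mul_zero] at h1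
        have h2 : frP φ p = 0 := abs_eq_zero.1 (le_antisymm h1 (abs_nonneg _))
        simp [h2]
      simp [hz, h0]
    · have hKr : (0 : ℝ) < K := by exact_mod_cast h0
      have h1 : ∀ t, 2 * (‖F t‖ * ‖F' t‖) ≤ 7 * K * ‖F t‖ ^ 2 + 1 / (7 * K) * ‖F' t‖ ^ 2 := by
        intro t
        have h2 : 0 ≤ (7 * K * ‖F t‖ - ‖F' t‖) ^ 2 / (7 * K) := by positivity
        have h3 : (7 * K * ‖F t‖ - ‖F' t‖) ^ 2 / (7 * K) =
            7 * K * ‖F t‖ ^ 2 + 1 / (7 * K) * ‖F' t‖ ^ 2 - 2 * (‖F t‖ * ‖F' t‖) := by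
          field_simp
          ring
        linarith
      have h4 : ∫ t in (0 : ℝ)..1, 2 * (‖F t‖ * ‖F' t‖) ≤
          ∫ t in (0 : ℝ)..1, (7 * K * ‖F t‖ ^ 2 + 1 / (7 * K) * ‖F' t‖ ^ 2) := by
        refine intervalIntegral.integral_mono_on (by norm_num) ?_ ?_ fun t _ => h1 t
        · apply Continuous.intervalIntegrable; fun_prop
        · apply Continuous.intervalIntegrable; fun_prop
      have h6 : ∫ t in (0 : ℝ)..1, (7 * K * ‖F t‖ ^ 2 + 1 / (7 * K) * ‖F' t‖ ^ 2) =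
          7 * K * (∫ t in (0 : ℝ)..1, ‖F t‖ ^ 2) + 1 / (7 * K) * ∫ t in (0 : ℝ)..1, ‖F' t‖ ^ 2 := by
        rw [intervalIntegral.integral_add (by apply Continuous.intervalIntegrable; fun_prop)
          (by apply Continuous.intervalIntegrable; fun_prop), intervalIntegral.integral_const_mul,
          intervalIntegral.integral_const_mul]
      rw [h6] at h4
      have hpi : Real.pi ^ 2 ≤ 10 := by
        have := Real.pi_lt_d2
        have := Real.pi_pos
        nlinarith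
      calc ∫ t in (0 : ℝ)..1, 2 * (‖F t‖ * ‖F' t‖)
          ≤ 7 * K * (∫ t in (0 : ℝ)..1, ‖F t‖ ^ 2) + 1 / (7 * K) * ∫ t in (0 : ℝ)..1, ‖F' t‖ ^ 2 := h4
        _ ≤ 7 * K * S + 1 / (7 * K) * ((2 * Real.pi * K) ^ 2 * S) := by gcongr
        _ = 7 * K * S + Real.pi ^ 2 * (4 / 7 * K * S) := by field_simp; ring
        _ ≤ 7 * K * S + 10 * (4 / 7 * K * S) := by gcongr
        _ ≤ 14 * K * S := by nlinarith [mul_nonneg hKr.le hS0]
  -- summing the intervals
  have hsum : ∀ G : ℝ → ℝ, Continuous G →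
      ∑ i ∈ range R, ∫ y in ((i : ℝ) / R)..(((i : ℝ) + 1) / R), G y = ∫ y in (0 : ℝ)..1, G y := by
    intro G hG
    have h := intervalIntegral.sum_integral_adjacent_intervals (f := G) (μ := volume)
      (a := fun i : ℕ => (i : ℝ) / R) (n := R) (fun k _ => hG.intervalIntegrable _ _)
    rw [Nat.cast_zero, zero_div, div_self hR0.ne'] at h
    rw [← h]
    refine sum_congr rfl fun i _ => ?_
    push_cast
    rfl
  calc ∑ i ∈ range R, ‖ZZ (fa φ (β i)) U1 U2 j‖ ^ 2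
      ≤ ∑ i ∈ range R, ((R : ℝ) * (∫ y in ((i : ℝ) / R)..(((i : ℝ) + 1) / R), ‖F y‖ ^ 2) +
          ∫ y in ((i : ℝ) / R)..(((i : ℝ) + 1) / R), 2 * (‖F y‖ * ‖F' y‖)) := by
        refine sum_le_sum fun i hi => ?_
        rw [hZ]
        obtain ⟨h1, h2⟩ := hβ i (mem_range.1 hi)
        refine sobolev hFc hF'c hd (h1.trans h2) hR0 ?_ h1 h2
        rw [← sub_div]
        congr 1
        ring
    _ = (R : ℝ) * (∫ y in (0 : ℝ)..1, ‖F y‖ ^ 2) + ∫ y in (0 : ℝ)..1, 2 * (‖F y‖ * ‖F' y‖) := by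
        rw [sum_add_distrib, ← mul_sum, hsum _ (by fun_prop), hsum _ (by fun_prop)]
    _ ≤ (R : ℝ) * S + 14 * K * S := by gcongr
    _ = ((R : ℝ) + 14 * K) * ((solP φ (U1 + j) (U2 + j) j).card : ℝ) := by rw [← hS]; ring

end Pool.Agent.K1H88.GT
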