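import Pool.Agent.K1H88.GT.Stm

/-! Piece MOMQ of project GT: the second moment of the correlations of `μ(n) (n/q)` over the odd primes `q`. -/

set_option autoImplicit false

namespace Pool.Agent.K1H88.GT

namespace MOMQ

open Finset

lemma ZZ_eq (a : ℕ → ℂ) (U1 U2 j : ℕ) :
    ZZ a U1 U2 j = ∑ t ∈ Ioc (U1 + j) (U2 + j) ×ˢ Icc 1 j,
      (starRingEnd ℂ) (a t.1) * a (t.1 - t.2) := by
  rw [Finset.sum_product]
  unfold ZZ
  refine Finset.sum_nbij' (fun u => u + j + 1) (fun m => m - j - 1) ?_ ?_ ?_ ?_ ?_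
  · intro u hu
    rw [mem_Ico] at hu; rw [mem_Ioc]; omega
  · intro m hm
    rw [mem_Ioc] at hm; rw [mem_Ico]; omega
  · intro u hu
    show u + j + 1 - j - 1 = u
    omega
  · intro m hm
    rw [mem_Ioc] at hm
    show m - j - 1 + j + 1 = m
    omega
  · intro u hu
    unfold DD
    rw [Finset.mul_sum]
    refine Finset.sum_nbij' (fun n => u + j + 1 - n) (fun h => u + j + 1 - h) ?_ ?_ ?_ ?_ ?_
    · intro n hn
      rw [mem_Ioc] at hn; rw [mem_Icc]; omega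
    · intro n hn
      rw [mem_Icc] at hn; rw [mem_Ioc]; omega
    · intro n hn
      rw [mem_Ioc] at hn
      show u + j + 1 - (u + j + 1 - n) = n
      omega
    · intro n hn
      rw [mem_Icc] at hn
      show u + j + 1 - (u + j + 1 - n) = n
      omega
    · intro n hn
      rw [mem_Ioc] at hn
      have e : u + j + 1 - (u + j + 1 - n) = n := by omega
      simp only [e]

/-- the correlation with the modulus `M` -/
def zz (T : Finset (ℕ × ℕ)) (M : ℕ) : ℤ :=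
  ∑ t ∈ T, ArithmeticFunction.moebius t.1 * ArithmeticFunction.moebius (t.1 - t.2) *
    jacobiSym ((t.1 * (t.1 - t.2) : ℕ) : ℤ) M

lemma ZZ_qa (q U1 U2 j : ℕ) :
    ZZ (qa q) U1 U2 j = ((zz (Ioc (U1 + j) (U2 + j) ×ˢ Icc 1 j) q : ℤ) : ℂ) := by
  rw [ZZ_eq]
  unfold zz qa
  rw [Int.cast_sum]
  refine Finset.sum_congr rfl fun t _ => ?_
  rw [map_mul, map_intCast, map_intCast, Nat.cast_mul, jacobiSym.mul_left]
  push_cast
  ring

lemma norm_sq_eq (q U1 U2 j : ℕ) : ‖ZZ (qa q) U1 U2 j‖ ^ 2 =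
    ((zz (Ioc (U1 + j) (U2 + j) ×ˢ Icc 1 j) q : ℤ) : ℝ) ^ 2 := by
  rw [ZZ_qa, Complex.norm_intCast, sq_abs]

/-- the coefficient -/
def cc (p : (ℕ × ℕ) × (ℕ × ℕ)) : ℤ :=
  ArithmeticFunction.moebius p.1.1 * ArithmeticFunction.moebius (p.1.1 - p.1.2) *
    (ArithmeticFunction.moebius p.2.1 * ArithmeticFunction.moebius (p.2.1 - p.2.2))

/-- the product of the four numbers -/
def NN (p : (ℕ × ℕ) × (ℕ × ℕ)) : ℕ := p.1.1 * (p.1.1 - p.1.2) * (p.2.1 * (p.2.1 - p.2.2))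

lemma zz_sq (T : Finset (ℕ × ℕ)) (M : ℕ) :
    zz T M ^ 2 = ∑ p ∈ T ×ˢ T, cc p * jacobiSym (NN p : ℤ) M := by
  rw [sq, Finset.sum_product]
  unfold zz
  rw [Finset.sum_mul_sum]
  refine Finset.sum_congr rfl fun t _ => Finset.sum_congr rfl fun t' _ => ?_
  unfold cc NN
  rw [Nat.cast_mul (t.1 * (t.1 - t.2)) (t'.1 * (t'.1 - t'.2)), jacobiSym.mul_left]
  ring

lemma mu_abs (n : ℕ) : |ArithmeticFunction.moebius n| ≤ 1 := ArithmeticFunction.abs_moebius_le_one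

lemma cc_abs (p : (ℕ × ℕ) × (ℕ × ℕ)) : |cc p| ≤ 1 := by
  unfold cc
  rw [abs_mul, abs_mul, abs_mul]
  have h := mu_abs
  have h0 : ∀ n : ℕ, 0 ≤ |ArithmeticFunction.moebius n| := fun n => abs_nonneg _
  exact mul_le_one₀ (mul_le_one₀ (h _) (h0 _) (h _)) (mul_nonneg (h0 _) (h0 _))
    (mul_le_one₀ (h _) (h0 _) (h _))

lemma cc_zero {p : (ℕ × ℕ) × (ℕ × ℕ)} (h : cc p ≠ 0) :
    Squarefree p.1.1 ∧ Squarefree (p.1.1 - p.1.2) ∧ Squarefree p.2.1 ∧ Squarefree (p.2.1 - p.2.2) := by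
  unfold cc at h
  have h1 := left_ne_zero_of_mul h
  have h2 := right_ne_zero_of_mul h
  exact ⟨ArithmeticFunction.moebius_ne_zero_iff_squarefree.1 (left_ne_zero_of_mul h1),
    ArithmeticFunction.moebius_ne_zero_iff_squarefree.1 (right_ne_zero_of_mul h1),
    ArithmeticFunction.moebius_ne_zero_iff_squarefree.1 (left_ne_zero_of_mul h2),
    ArithmeticFunction.moebius_ne_zero_iff_squarefree.1 (right_ne_zero_of_mul h2)⟩

lemma js_abs (a : ℤ) (b : ℕ) : |jacobiSym a b| ≤ 1 := by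
  rcases jacobiSym.trichotomy a b with h | h | h <;> rw [h] <;> norm_num

end MOMQ

open MOMQ Finset in
theorem t_MOMQ (hJ : S_JS) : S_MOMQ := by
  obtain ⟨C, hC, hJS⟩ := hJ
  refine ⟨4 * C, by positivity, ?_⟩
  intro Q U1 U2 j hU hj
  obtain ⟨T, hT⟩ : ∃ T, T = Ioc (U1 + j) (U2 + j) ×ˢ Icc 1 j := ⟨_, rfl⟩
  obtain ⟨B, hB⟩ : ∃ B : ℝ, B = (U2 : ℝ) + j := ⟨_, rfl⟩
  have hj1 : (1 : ℝ) ≤ j := by exact_mod_cast hj
  have hB1 : 1 ≤ B := by rw [hB]; have : (0 : ℝ) ≤ U2 := Nat.cast_nonneg _; linarith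
  have hlB : 0 ≤ Real.log B := Real.log_nonneg hB1
  have hcardT : ((T.card : ℕ) : ℝ) ≤ B * j := by
    rw [hT, card_product, Nat.card_Ioc, Nat.card_Icc, Nat.add_sub_cancel, Nat.cast_mul]
    have h1 : ((U2 + j - (U1 + j) : ℕ) : ℝ) ≤ B := by
      rw [hB]
      have : U2 + j - (U1 + j) ≤ U2 + j := Nat.sub_le _ _
      exact_mod_cast this
    gcongr
  have hN : ∀ p ∈ T ×ˢ T, 1 ≤ NN p ∧ (NN p : ℝ) ≤ B ^ 4 := by
    intro p hp
    rw [hT, mem_product, mem_product, mem_product, mem_Ioc, mem_Icc, mem_Ioc, mem_Icc] at hp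
    obtain ⟨⟨⟨a1, a2⟩, a3, a4⟩, ⟨b1, b2⟩, b3, b4⟩ := hp
    have c1 : 1 ≤ p.1.1 := by omega
    have c2 : 1 ≤ p.1.1 - p.1.2 := by omega
    have c3 : 1 ≤ p.2.1 := by omega
    have c4 : 1 ≤ p.2.1 - p.2.2 := by omega
    have d1 : (p.1.1 : ℝ) ≤ B := by rw [hB]; exact_mod_cast a2
    have d2 : ((p.1.1 - p.1.2 : ℕ) : ℝ) ≤ B := by
      rw [hB]; exact_mod_cast (by omega : p.1.1 - p.1.2 ≤ U2 + j)
    have d3 : (p.2.1 : ℝ) ≤ B := by rw [hB]; exact_mod_cast b2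
    have d4 : ((p.2.1 - p.2.2 : ℕ) : ℝ) ≤ B := by
      rw [hB]; exact_mod_cast (by omega : p.2.1 - p.2.2 ≤ U2 + j)
    refine ⟨Nat.mul_pos (Nat.mul_pos c1 c2) (Nat.mul_pos c3 c4), ?_⟩
    unfold NN
    rw [Nat.cast_mul, Nat.cast_mul, Nat.cast_mul]
    calc (p.1.1 : ℝ) * ((p.1.1 - p.1.2 : ℕ) : ℝ) * ((p.2.1 : ℝ) * ((p.2.1 - p.2.2 : ℕ) : ℝ))
        ≤ B * B * (B * B) := by gcongr
      _ = B ^ 4 := by ring
  set F2 := (Icc 1 Q).filter (fun m => Odd m) with hF2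
  have hF2c : ((F2.card : ℕ) : ℝ) ≤ Q := by
    have h1 : F2.card ≤ (Icc 1 Q).card := card_filter_le _ _
    rw [Nat.card_Icc, Nat.add_sub_cancel] at h1
    exact_mod_cast h1
  -- step 1: all odd moduli
  have h1 : ∑ q ∈ (Icc 1 Q).filter (fun q => q.Prime ∧ 2 < q), ‖ZZ (qa q) U1 U2 j‖ ^ 2 ≤
      ∑ M ∈ F2, ((zz T M : ℤ) : ℝ) ^ 2 := by
    rw [hT]
    simp_rw [norm_sq_eq]
    refine sum_le_sum_of_subset_of_nonneg ?_ fun M _ _ => by positivity
    intro q hq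
    rw [mem_filter] at hq
    rw [hF2, mem_filter]
    exact ⟨hq.1, hq.2.1.odd_of_ne_two (by omega)⟩
  refine h1.trans ?_
  have h2 : ∑ M ∈ F2, ((zz T M : ℤ) : ℝ) ^ 2 =
      ∑ p ∈ T ×ˢ T, ((cc p : ℤ) : ℝ) * ((∑ M ∈ F2, jacobiSym (NN p : ℤ) M : ℤ) : ℝ) := by
    have e : ∀ M, ((zz T M : ℤ) : ℝ) ^ 2 = ∑ p ∈ T ×ˢ T, ((cc p : ℤ) : ℝ) * ((jacobiSym (NN p : ℤ) M : ℤ) : ℝ) := by
      intro M
      rw [← Int.cast_pow, zz_sq]
      push_cast
      rfl
    simp_rw [e]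
    rw [sum_comm]
    refine sum_congr rfl fun p _ => ?_
    rw [← mul_sum]
    push_cast
    rfl
  rw [h2]
  set S := sol (U1 + j) (U2 + j) j with hS
  have hterm : ∀ p ∈ T ×ˢ T, ((cc p : ℤ) : ℝ) * ((∑ M ∈ F2, jacobiSym (NN p : ℤ) M : ℤ) : ℝ) ≤
      (if p ∈ S then (Q : ℝ) else 0) + C * B ^ 2 * (4 * (1 + Real.log B)) := by
    intro p hp
    have hE : 0 ≤ C * B ^ 2 * (4 * (1 + Real.log B)) := by positivity
    have hc1 : |((cc p : ℤ) : ℝ)| ≤ 1 := by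
      have := cc_abs p
      exact_mod_cast this
    have habs : ((cc p : ℤ) : ℝ) * ((∑ M ∈ F2, jacobiSym (NN p : ℤ) M : ℤ) : ℝ) ≤
        |((∑ M ∈ F2, jacobiSym (NN p : ℤ) M : ℤ) : ℝ)| := by
      refine (le_abs_self _).trans ?_
      rw [abs_mul]
      exact mul_le_of_le_one_left (abs_nonneg _) hc1
    by_cases hc : cc p = 0
    · rw [hc]
      simp only [Int.cast_zero, zero_mul]
      split_ifs <;> positivity
    · by_cases hsq : IsSquare (NN p)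
      · have hpS : p ∈ S := by
          rw [hS]
          unfold sol
          rw [mem_filter]
          rw [hT] at hp
          exact ⟨hp, cc_zero hc, hsq⟩
        rw [if_pos hpS]
        refine habs.trans ?_
        have h3 : |((∑ M ∈ F2, jacobiSym (NN p : ℤ) M : ℤ) : ℝ)| ≤ Q := by
          push_cast
          refine (abs_sum_le_sum_abs _ _).trans ?_
          calc ∑ M ∈ F2, |((jacobiSym (NN p : ℤ) M : ℤ) : ℝ)| ≤ ∑ M ∈ F2, (1 : ℝ) := by
                refine sum_le_sum fun M _ => ?_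
                have := js_abs (NN p : ℤ) M
                exact_mod_cast this
            _ = ((F2.card : ℕ) : ℝ) := by simp
            _ ≤ Q := hF2c
        linarith
      · have h3 := hJS (NN p) Q hsq
        obtain ⟨hN1, hN4⟩ := hN p hp
        have hN1' : (1 : ℝ) ≤ NN p := by exact_mod_cast hN1
        have h4 : √((NN p : ℕ) : ℝ) ≤ B ^ 2 := by
          rw [Real.sqrt_le_left (by positivity)]
          calc ((NN p : ℕ) : ℝ) ≤ B ^ 4 := hN4
            _ = (B ^ 2) ^ 2 := by ring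
        have h5 : Real.log (NN p) ≤ 4 * Real.log B := by
          calc Real.log (NN p) ≤ Real.log (B ^ 4) := Real.log_le_log (by linarith) hN4
            _ = 4 * Real.log B := by rw [Real.log_pow]; norm_num
        have h6 : 0 ≤ Real.log (NN p) := Real.log_nonneg hN1'
        have h7 : C * √((NN p : ℕ) : ℝ) * (1 + Real.log (NN p)) ≤ C * B ^ 2 * (4 * (1 + Real.log B)) := by
          have h8 : 1 + Real.log (NN p) ≤ 4 * (1 + Real.log B) := by linarith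
          gcongr
        have h9 : (0 : ℝ) ≤ if p ∈ S then (Q : ℝ) else 0 := by
          split_ifs <;> positivity
        have h10 := habs.trans (h3.trans h7)
        linarith
  refine (sum_le_sum hterm).trans ?_
  rw [sum_add_distrib]
  have h3 : ∑ p ∈ T ×ˢ T, (if p ∈ S then (Q : ℝ) else 0) = Q * ((S.card : ℕ) : ℝ) := by
    have hsub : S ⊆ T ×ˢ T := by
      rw [hS, hT]
      unfold sol
      exact filter_subset _ _
    rw [← sum_filter, filter_mem_eq_inter, inter_eq_right.mpr hsub, sum_const, nsmul_eq_mul, mul_comm]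
  have h4 : ∑ p ∈ T ×ˢ T, C * B ^ 2 * (4 * (1 + Real.log B)) ≤ 4 * C * B ^ 4 * (j : ℝ) ^ 2 * (1 + Real.log B) := by
    rw [sum_const, card_product, nsmul_eq_mul]
    push_cast
    calc ((T.card : ℕ) : ℝ) * ((T.card : ℕ) : ℝ) * (C * B ^ 2 * (4 * (1 + Real.log B)))
        ≤ (B * j) * (B * j) * (C * B ^ 2 * (4 * (1 + Real.log B))) := by gcongr
      _ = _ := by ring
  rw [h3, ← hB]
  linarith

end Pool.Agent.K1H88.GT
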