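import Pool.Agent.K1H88.GT.FINT
import Pool.Agent.K1H88.GT.BC
import Pool.Agent.K1H88.GT.GOOD
import Pool.Agent.K1H10.GT.Sand
import Pool.Agent.K1H3.GT.Momt
import Pool.Agent.K1H21.GT.CNTT
import Pool.Agent.K1H40.GT.Uni
import Pool.Agent.K1H97.GT.Momp
import Pool.Agent.K1H96.GT2.CNTP
import Pool.Agent.K1H96.GC.Sqf

set_option autoImplicit false

namespace Pool.Agent.K1H88.GT

open Finset MeasureTheory

theorem sq_count : ∃ C1 : ℝ, 0 ≤ C1 ∧ ∀ A B : ℕ, A ≤ B →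
    |(((Ioc A B).filter (fun n => Squarefree n)).card : ℝ) - 6 / Real.pi ^ 2 * ((B : ℝ) - A)| ≤
      C1 * √(B : ℝ) := by
  obtain ⟨C, hC⟩ := Pool.Agent.K1H96.GC.t_SQF
  refine ⟨max C 0, le_max_right _ _, fun A B h => (hC A B h).trans ?_⟩
  gcongr
  exact le_max_left _ _

theorem uni : S_UNI := Pool.Agent.K1H40.GT.t_UNI (t_GOOD Pool.Agent.K1H10.GT.t_SAND) sq_count

theorem main_t : S_FINT := t_FINT uni Pool.Agent.K1H21.GT.t_CNTT Pool.Agent.K1H3.GT.t_MOMT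

theorem countable_poly : Countable (Polynomial ℤ) := by
  rw [← Cardinal.mk_le_aleph0_iff]
  refine Polynomial.cardinalMk_le_max.trans ?_
  rw [max_le_iff]
  exact ⟨Cardinal.mk_le_aleph0, le_refl _⟩

theorem main_p : ∀ ε : ℝ, 0 < ε → ∃ δ : ℝ, 0 < δ ∧ ∀ᵐ α : ℝ, ∀ P : Polynomial ℤ, 2 ≤ P.natDegree →
    ∃ X0 : ℝ, 1 ≤ X0 ∧ ∀ X H : ℝ, X0 ≤ X → 1 ≤ H → H ≤ X ^ (1 - ε) →
      |VV (fa (fun n => P.eval (n : ℤ)) α) X H - 6 / Real.pi ^ 2 * H| ≤ H * X ^ (-δ) := by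
  intro ε hε
  obtain ⟨δ, hδ, h⟩ := t_BC uni Pool.Agent.K1H97.GT.t_MOMP ε hε
  refine ⟨δ, hδ, ?_⟩
  have := countable_poly
  rw [ae_all_iff]
  intro P
  by_cases hP : 2 ≤ P.natDegree
  · filter_upwards [h _ (Pool.Agent.K1H96.GT2.CNTP.t_CNTP P hP)] with α hα
    intro _
    exact hα
  · exact Filter.Eventually.of_forall fun α h => absurd h hP

end Pool.Agent.K1H88.GT
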