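import Pool.Agent.K1H88.GT.Main
import Pool.Agent.K1H88.GT.HD
import Pool.Agent.K1H58.GT.GRO
import Pool.Agent.K1H88.GT.LSP

set_option autoImplicit false

namespace Pool.Agent.K1H88.GT

open Finset MeasureTheory

theorem main_hd : ∀ ε : ℝ, 0 < ε → ∃ δ : ℝ, 0 < δ ∧
    ∀ P : Polynomial ℤ, 2 ≤ P.natDegree →
      dimH {α : ℝ | ¬ ∃ X0 : ℝ, 1 ≤ X0 ∧ ∀ X H : ℝ, X0 ≤ X → 1 ≤ H → H ≤ X ^ (1 - ε) →
        |VV (fa (fun n => P.eval (n : ℤ)) α) X H - 6 / Real.pi ^ 2 * H| ≤ H * X ^ (-δ)} ≤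
        ENNReal.ofReal (1 - min ε (1 / 4) / (8 * P.natDegree)) :=
  t_HD uni t_LSP Pool.Agent.K1H58.GT.t_GRO Pool.Agent.K1H96.GT2.CNTP.t_CNTP

end Pool.Agent.K1H88.GT
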