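import Mathlib

/-!
Project GT (MP_0575cc_nt): the variance in short intervals of `μ(n) n^{it}` for almost all `t` in `[T, 2T]`, and of
`μ(n) (n/q)` for almost all primes `q ≤ Q`. Definitions and statements of the pieces (Mathlib only).
-/

set_option autoImplicit false

namespace Pool.Agent.K1H88.GT

open Finset MeasureTheory

/-- the sum over the integers in `(u, u + j]` -/
noncomputable def DD (a : ℕ → ℂ) (u j : ℕ) : ℂ := ∑ n ∈ Ioc u (u + j), a n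

/-- the sum of the squares of the sums over the windows `(u, u + j]`, `U1 ≤ u < U2` -/
noncomputable def II (a : ℕ → ℂ) (U1 U2 j : ℕ) : ℝ := ∑ u ∈ Ico U1 U2, ‖DD a u j‖ ^ 2

/-- the correlations -/
noncomputable def ZZ (a : ℕ → ℂ) (U1 U2 j : ℕ) : ℂ :=
  ∑ u ∈ Ico U1 U2, (starRingEnd ℂ) (a (u + j + 1)) * DD a u j

/-- the weighted sum of the squares of the correlations -/
noncomputable def QQ (a : ℕ → ℂ) (U1 U2 J : ℕ) : ℝ := ∑ j ∈ Icc 1 J, ‖ZZ a U1 U2 j‖ ^ 2 / j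

/-- the sum over the integers `n` with `|n - x| < H / 2` -/
noncomputable def MM (a : ℕ → ℂ) (x H : ℝ) : ℂ :=
  ∑ n ∈ (range (⌈x + H⌉₊ + 1)).filter (fun n : ℕ => |(n : ℝ) - x| < H / 2), a n

/-- the variance -/
noncomputable def VV (a : ℕ → ℂ) (X H : ℝ) : ℝ := (1 / X) * ∫ x in X..2 * X, ‖MM a x H‖ ^ 2

/-- the function `μ(n) n^{it}` -/
noncomputable def ta (t : ℝ) (n : ℕ) : ℂ :=
  ((ArithmeticFunction.moebius n : ℤ) : ℂ) * (n : ℂ) ^ ((t : ℂ) * Complex.I)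

/-- the function `μ(n) (n/q)` -/
noncomputable def qa (q n : ℕ) : ℂ :=
  ((ArithmeticFunction.moebius n : ℤ) : ℂ) * ((jacobiSym (n : ℤ) q : ℤ) : ℂ)

/-- Piece SAND: comparison of the integral with the sums over windows. -/
def S_SAND : Prop := ∀ (a : ℕ → ℂ) (X H : ℝ) (U1 U2 : ℕ), 1 ≤ H → 0 < X → U1 ≤ U2 →
  ((U1 : ℝ) + H / 2 ≤ X → 2 * X ≤ (U2 : ℝ) + H / 2 →
    ∫ x in X..2 * X, ‖MM a x H‖ ^ 2 ≤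
      (1 - Int.fract H) * II a U1 U2 ⌊H⌋₊ + Int.fract H * II a U1 U2 (⌊H⌋₊ + 1)) ∧
  (X ≤ (U1 : ℝ) + H / 2 → (U2 : ℝ) + H / 2 ≤ 2 * X →
    (1 - Int.fract H) * II a U1 U2 ⌊H⌋₊ + Int.fract H * II a U1 U2 (⌊H⌋₊ + 1) ≤
      ∫ x in X..2 * X, ‖MM a x H‖ ^ 2)

/-- Piece GOOD: the variance from the correlations on a grid. -/
def S_GOOD : Prop := ∀ C1 : ℝ, 0 ≤ C1 →
  (∀ A B : ℕ, A ≤ B → |(((Ioc A B).filter (fun n => Squarefree n)).card : ℝ) -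
    6 / Real.pi ^ 2 * ((B : ℝ) - A)| ≤ C1 * √(B : ℝ)) →
  ∀ a : ℕ → ℂ, (∀ n, ‖a n‖ ^ 2 = if Squarefree n then 1 else 0) →
  ∀ (N g J : ℕ) (L X H : ℝ), 1 ≤ N → 1 ≤ g → g ≤ N → (g : ℝ) ≤ L → √(N : ℝ) ≤ L → (N : ℝ) ≤ X → X ≤ 2 * N →
    1 ≤ H → H ≤ X → ⌊H⌋₊ ≤ J → (∀ c b : ℕ, c ≤ b → b * g ≤ 6 * N → QQ a (c * g) (b * g) J ≤ L ^ 2) →
    |X * VV a X H - 6 / Real.pi ^ 2 * (H * X)| ≤ (6 + 6 * C1) * (H * L)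

/-- quadruples `((m, h), (m', h'))` with `A < m, m' ≤ B`, `1 ≤ h, h' ≤ j` -/
def quad (A B j : ℕ) : Finset ((ℕ × ℕ) × (ℕ × ℕ)) := (Ioc A B ×ˢ Icc 1 j) ×ˢ (Ioc A B ×ˢ Icc 1 j)

/-- the determinant `m h' - m' h` -/
def det (p : (ℕ × ℕ) × (ℕ × ℕ)) : ℤ := (p.1.1 : ℤ) * p.2.2 - (p.2.1 : ℤ) * p.1.2

/-- Piece MOMT: the second moment of the correlations of `μ(n) n^{it}` over `t`. -/
def S_MOMT : Prop := ∀ (T : ℝ) (U1 U2 j : ℕ), 0 < T →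
  ∫ t in T..2 * T, ‖ZZ (ta t) U1 U2 j‖ ^ 2 ≤
    T * (((quad (U1 + j) (U2 + j) j).filter (fun p => det p = 0)).card : ℝ) +
    2 * ((U2 : ℝ) + j) ^ 2 *
      ∑ p ∈ (quad (U1 + j) (U2 + j) j).filter (fun p => det p ≠ 0), 1 / |(det p : ℝ)|

/-- Piece CNTT: counting quadruples by their determinant. -/
def S_CNTT : Prop := ∀ η : ℝ, 0 < η → ∃ C : ℝ, 0 ≤ C ∧ ∀ A B j : ℕ, 1 ≤ j → j ≤ B →
  (((quad A B j).filter (fun p => det p = 0)).card : ℝ) ≤ C * (B : ℝ) ^ (1 + η) * j ∧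
  ∑ p ∈ (quad A B j).filter (fun p => det p ≠ 0), 1 / |(det p : ℝ)| ≤ C * (B : ℝ) ^ (1 + η) * j

/-- Piece JS: sums of Jacobi symbols with fixed numerator over the odd moduli. -/
def S_JS : Prop := ∃ C : ℝ, 0 ≤ C ∧ ∀ N Q : ℕ, ¬ IsSquare N →
  |((∑ m ∈ (Icc 1 Q).filter (fun m => Odd m), jacobiSym (N : ℤ) m : ℤ) : ℝ)| ≤ C * √(N : ℝ) * (1 + Real.log N)

/-- the quadruples with squarefree entries and `m (m - h) m' (m' - h')` a square -/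
def sol (A B j : ℕ) : Finset ((ℕ × ℕ) × (ℕ × ℕ)) :=
  ((Ioc A B ×ˢ Icc 1 j) ×ˢ (Ioc A B ×ˢ Icc 1 j)).filter (fun p =>
    (Squarefree p.1.1 ∧ Squarefree (p.1.1 - p.1.2) ∧ Squarefree p.2.1 ∧ Squarefree (p.2.1 - p.2.2)) ∧
      IsSquare (p.1.1 * (p.1.1 - p.1.2) * (p.2.1 * (p.2.1 - p.2.2))))

/-- Piece CNTQ: the number of solutions (this is `S_CNT` of `Pool.Agent.K1H98.RM`). -/
def S_CNTQ : Prop := ∀ η : ℝ, 0 < η → ∃ C : ℝ, 0 ≤ C ∧ ∀ A B j : ℕ, 1 ≤ j → j ≤ B →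
  ((sol A B j).card : ℝ) ≤ C * (B : ℝ) ^ (1 + η) * j

/-- Piece MOMQ: the second moment of the correlations of `μ(n) (n/q)` over the odd primes `q`. -/
def S_MOMQ : Prop := ∃ C : ℝ, 0 ≤ C ∧ ∀ Q U1 U2 j : ℕ, U1 ≤ U2 → 1 ≤ j →
  ∑ q ∈ (Icc 1 Q).filter (fun q => q.Prime ∧ 2 < q), ‖ZZ (qa q) U1 U2 j‖ ^ 2 ≤
    Q * ((sol (U1 + j) (U2 + j) j).card : ℝ) +
      C * ((U2 : ℝ) + j) ^ 4 * (j : ℝ) ^ 2 * (1 + Real.log ((U2 : ℝ) + j))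

/-- Piece UNI: the union bound over a grid for a family of sequences. -/
def S_UNI : Prop := ∀ κ : ℝ, 0 < κ → κ ≤ 1 → ∃ δ : ℝ, 0 < δ ∧ ∃ C : ℝ, 1 ≤ C ∧
  ∀ (Ω : Type) [MeasurableSpace Ω] (ν : Measure Ω) [IsFiniteMeasure ν] (a : Ω → ℕ → ℂ),
    (∀ n, Measurable (fun ω => a ω n)) → (∀ ω n, ‖a ω n‖ ^ 2 = if Squarefree n then 1 else 0) →
    ∀ (N J : ℕ) (M : ℝ), 1 ≤ N → J ≤ 2 * N → 0 ≤ M →
    (∀ U1 U2 j : ℕ, U1 ≤ U2 → U2 ≤ 6 * N → 1 ≤ j → j ≤ J →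
      ∫ ω, ‖ZZ (a ω) U1 U2 j‖ ^ 2 ∂ν ≤ M * (N : ℝ) ^ (2 - κ)) →
    ν {ω | ∃ X H : ℝ, (N : ℝ) ≤ X ∧ X ≤ 2 * N ∧ 1 ≤ H ∧ H ≤ X ∧ ⌊H⌋₊ ≤ J ∧
        C * H * X ^ (-δ) < |VV (a ω) X H - 6 / Real.pi ^ 2 * H|} ≤
      ENNReal.ofReal (C * M * (N : ℝ) ^ (-(κ / 2)))

/-- the exceptional `t` in `[T, 2T]` -/
def ExT (ε δ C T : ℝ) : Set ℝ := {t | T ≤ t ∧ t ≤ 2 * T ∧ ∃ X H : ℝ, T ^ ε ≤ X ∧ 1 ≤ H ∧ H ≤ X ^ (1 - ε) ∧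
  X * H ≤ T ^ (1 - ε) ∧ C * H * X ^ (-δ) < |VV (ta t) X H - 6 / Real.pi ^ 2 * H|}

/-- Result for `μ(n) n^{it}`. -/
def S_FINT : Prop := ∀ ε : ℝ, 0 < ε → ∃ δ : ℝ, 0 < δ ∧ ∃ C : ℝ, 0 < C ∧ ∀ T : ℝ, 1 ≤ T →
  volume (ExT ε δ C T) ≤ ENNReal.ofReal (C * T ^ (1 - δ))

/-- the exceptional primes `q ≤ Q` -/
def ExQ (ε δ C : ℝ) (Q : ℕ) : Set ℕ := {q | q.Prime ∧ q ≤ Q ∧ ∃ X H : ℝ, (Q : ℝ) ^ ε ≤ X ∧ 1 ≤ H ∧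
  H ≤ X ^ (1 - ε) ∧ X * H ≤ (Q : ℝ) ^ (1 / 2 - ε) ∧ C * H * X ^ (-δ) < |VV (qa q) X H - 6 / Real.pi ^ 2 * H|}

/-- Result for `μ(n) (n/q)`. -/
def S_FINQ : Prop := ∀ ε : ℝ, 0 < ε → ∃ δ : ℝ, 0 < δ ∧ ∃ C : ℝ, 0 < C ∧ ∀ Q : ℕ, 1 ≤ Q →
  ((ExQ ε δ C Q).ncard : ℝ) ≤ C * (Q : ℝ) ^ (1 - δ)

end Pool.Agent.K1H88.GT
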