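import Pool.Agent.K1H88.GT.Stm

/-!
Project GT, part 2: the variance of `μ(n) e(α P(n))` for almost every real `α`, `P` an integer polynomial of
degree at least two. Definitions and statements of the pieces.
-/

set_option autoImplicit false

namespace Pool.Agent.K1H88.GT

open Finset MeasureTheory

/-- the function `μ(n) e(α φ(n))` -/
noncomputable def fa (φ : ℕ → ℤ) (α : ℝ) (n : ℕ) : ℂ :=
  ((ArithmeticFunction.moebius n : ℤ) : ℂ) * Complex.exp (2 * Real.pi * Complex.I * (α * (φ n : ℝ) : ℝ))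

/-- the quadruples `((m, h), (m', h'))` with `φ m - φ (m - h) = φ m' - φ (m' - h')` -/
def solP (φ : ℕ → ℤ) (A B j : ℕ) : Finset ((ℕ × ℕ) × (ℕ × ℕ)) :=
  (quad A B j).filter (fun p => φ p.1.1 - φ (p.1.1 - p.1.2) = φ p.2.1 - φ (p.2.1 - p.2.2))

/-- Piece MOMP: the second moment of the correlations over `α`. -/
def S_MOMP : Prop := ∀ (φ : ℕ → ℤ) (U1 U2 j : ℕ),
  ∫ α in (0 : ℝ)..1, ‖ZZ (fa φ α) U1 U2 j‖ ^ 2 ≤ ((solP φ (U1 + j) (U2 + j) j).card : ℝ)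

/-- few solutions -/
def Few (φ : ℕ → ℤ) : Prop := ∀ η : ℝ, 0 < η → ∃ C : ℝ, 0 ≤ C ∧ ∀ A B j : ℕ, 1 ≤ j → j ≤ A → A ≤ B →
  ((solP φ A B j).card : ℝ) ≤ C * (B : ℝ) ^ (1 + η) * j

/-- Piece CNTP: polynomials of degree at least two. -/
def S_CNTP : Prop := ∀ P : Polynomial ℤ, 2 ≤ P.natDegree → Few (fun n => P.eval (n : ℤ))

/-- Piece BC: Borel-Cantelli. -/
def S_BC : Prop := ∀ φ : ℕ → ℤ, Few φ → ∀ᵐ α : ℝ, ∀ ε : ℝ, 0 < ε → ∃ δ : ℝ, 0 < δ ∧ ∃ C : ℝ, 0 < C ∧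
  ∀ X H : ℝ, 1 ≤ X → 1 ≤ H → H ≤ X ^ (1 - ε) → |VV (fa φ α) X H - 6 / Real.pi ^ 2 * H| ≤ C * H * X ^ (-δ)

end Pool.Agent.K1H88.GT
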